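import Pool.Agent.H569_LCS.Ident
set_option autoImplicit false
set_option linter.unusedSimpArgs false
set_option linter.unusedVariables false
set_option linter.unusedSectionVars false
namespace Pool.Agent.H569_LCS

variable {A : Type} [Ring A] [Algebra ℂ A] (σ : A →ₐ[ℂ] A)

/-- sign of a parity -/
def sg (p : Bool) : ℂ := bif p then -1 else 1

/-- projection to the parity `p` part -/
noncomputable def pr (p : Bool) : A →ₗ[ℂ] A := (1/2 : ℂ) • (LinearMap.id + sg p • σ.toLinearMap)

theorem pr_apply (p : Bool) (a : A) : pr σ p a = (1/2 : ℂ) • (a + sg p • σ a) := rfl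

theorem pr_add_pr (a : A) : pr σ false a + pr σ true a = a := by
  simp only [pr_apply, sg, cond_true, cond_false]; module

theorem hom_iff (p : Bool) (a : A) : hom σ p a ↔ σ a = sg p • a := by
  cases p <;> simp [hom, sg]

theorem hom_pr (hσ : ∀ a, σ (σ a) = a) (p : Bool) (a : A) : hom σ p (pr σ p a) := by
  cases p <;> simp only [hom, pr_apply, sg, cond_true, cond_false, map_smul, map_add, hσ] <;> module

theorem pr_of_hom {p : Bool} {a : A} (h : hom σ p a) : pr σ p a = a := by
  cases p <;> simp only [hom, cond_true, cond_false] at h <;>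
    simp only [pr_apply, sg, cond_true, cond_false, h] <;> module

theorem pr_of_hom_not {p : Bool} {a : A} (h : hom σ p a) : pr σ (!p) a = 0 := by
  cases p <;> simp only [hom, cond_true, cond_false] at h <;>
    simp only [pr_apply, sg, cond_true, cond_false, h, Bool.not_true, Bool.not_false] <;> module

/-- the bilinear supercommutator -/
noncomputable def sbr : A →ₗ[ℂ] A →ₗ[ℂ] A :=
  LinearMap.mk₂ ℂ (fun a b => D σ false (pr σ false a) b + D σ true (pr σ true a) b)
    (by intro a b c; simp only [D, map_add, add_mul, mul_add]; abel)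
    (by intro a b c; simp only [D, map_smul, smul_mul_assoc, mul_smul_comm]; module)
    (by intro a b c; simp only [D, tw, cond_true, cond_false, map_add, add_mul, mul_add]; abel)
    (by intro a b c; simp only [D, tw, cond_true, cond_false, map_smul, smul_mul_assoc, mul_smul_comm]; module)

theorem sbr_apply (a b : A) :
    sbr σ a b = D σ false (pr σ false a) b + D σ true (pr σ true a) b := rfl

theorem D_zero (p : Bool) (b : A) : D σ p 0 b = 0 := by simp [D]

theorem sbr_of_hom {p : Bool} {a : A} (h : hom σ p a) (b : A) : sbr σ a b = D σ p a b := by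
  rw [sbr_apply]
  cases p
  · rw [pr_of_hom σ h, show pr σ true a = 0 from pr_of_hom_not σ h, D_zero, add_zero]
  · rw [pr_of_hom σ h, show pr σ false a = 0 from pr_of_hom_not σ h, D_zero, zero_add]

theorem hom_D {p q : Bool} {a b : A} (ha : hom σ p a) (hb : hom σ q b) :
    hom σ (xor p q) (D σ p a b) := by
  cases p <;> cases q <;>
  · simp only [hom, cond_true, cond_false] at ha hb
    simp only [hom, D, tw, cond_true, cond_false, Bool.xor_false, Bool.xor_true, Bool.false_xor,
      Bool.not_false, Bool.not_true, Bool.true_xor, map_sub, map_mul, ha, hb, map_neg, neg_mul, mul_neg,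
      neg_neg]
    try abel

theorem hom_mul {p q : Bool} {a b : A} (ha : hom σ p a) (hb : hom σ q b) :
    hom σ (xor p q) (a * b) := by
  cases p <;> cases q <;>
  · simp only [hom, cond_true, cond_false] at ha hb
    simp only [hom, cond_true, cond_false, Bool.xor_false, Bool.xor_true, Bool.false_xor,
      Bool.not_false, Bool.not_true, Bool.true_xor, map_mul, ha, hb, neg_mul, mul_neg, neg_neg]

theorem hom_smul {p : Bool} {a : A} (c : ℂ) (ha : hom σ p a) : hom σ p (c • a) := by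
  rw [hom_iff] at *; rw [map_smul, ha, smul_comm]

theorem hom_add {p : Bool} {a b : A} (ha : hom σ p a) (hb : hom σ p b) : hom σ p (a + b) := by
  rw [hom_iff] at *; rw [map_add, ha, hb, smul_add]

theorem hom_PP {s : A} (hs : σ s = s) {p : Bool} {a : A} (ha : hom σ p a) : hom σ p (PP s a) := by
  rw [hom_iff] at *
  rw [PP_apply, map_smul, map_add, map_mul, map_mul, hs, ha]
  simp only [mul_smul_comm, smul_mul_assoc, smul_add]; module

theorem hom_even {s : A} (hs : σ s = s) : hom σ false s := by simpa [hom] using hs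

theorem sigma_sbr (hσ : ∀ a, σ (σ a) = a) (a b : A) : σ (sbr σ a b) = sbr σ (σ a) (σ b) := by
  simp only [sbr_apply, D, tw, pr_apply, sg, cond_true, cond_false, map_add, map_sub, map_mul, map_smul, hσ]

/-- lower central series; `LL k` is `L_{k+1}` -/
noncomputable def LL : ℕ → Submodule ℂ A
  | 0 => ⊤
  | (k+1) => Submodule.map₂ (sbr σ) ⊤ (LL k)

theorem sbr_mem {k : ℕ} (a : A) {b : A} (hb : b ∈ LL σ k) : sbr σ a b ∈ LL σ (k+1) :=
  Submodule.apply_mem_map₂ _ Submodule.mem_top hb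

theorem LL_anti (k : ℕ) : LL σ (k+1) ≤ LL σ k := by
  induction k with
  | zero => exact le_top
  | succ k ih =>
    exact Submodule.map₂_le.2 (fun a _ b hb => sbr_mem σ a (ih hb))

theorem LL_anti' {i j : ℕ} (h : i ≤ j) : LL σ j ≤ LL σ i := by
  induction h with
  | refl => exact le_rfl
  | step _ ih => exact (LL_anti σ _).trans ih

theorem LL_sigma (hσ : ∀ a, σ (σ a) = a) (k : ℕ) {b : A} (hb : b ∈ LL σ k) : σ b ∈ LL σ k := by
  induction k generalizing b with
  | zero => trivial
  | succ k ih =>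
    have : LL σ (k+1) ≤ (LL σ (k+1)).comap σ.toLinearMap := by
      refine Submodule.map₂_le.2 (fun a _ b hb => ?_)
      show σ (sbr σ a b) ∈ LL σ (k+1)
      rw [sigma_sbr σ hσ]
      exact sbr_mem σ _ (ih hb)
    exact this hb

/-- a submodule stable under `σ` contains the homogeneous components of its elements -/
theorem pr_mem {W : Submodule ℂ A} (hW : ∀ x ∈ W, σ x ∈ W) (p : Bool) {x : A} (hx : x ∈ W) :
    pr σ p x ∈ W := by
  rw [pr_apply]
  exact W.smul_mem _ (W.add_mem hx (W.smul_mem _ (hW _ hx)))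

theorem LL_le (hσ : ∀ a, σ (σ a) = a) (k : ℕ) (W : Submodule ℂ A)
    (h : ∀ (p q : Bool) (a b : A), hom σ p a → hom σ q b → b ∈ LL σ k → D σ p a b ∈ W) :
    LL σ (k+1) ≤ W := by
  refine Submodule.map₂_le.2 (fun a _ b hb => ?_)
  have hs := fun x (hx : x ∈ LL σ k) => LL_sigma σ hσ k hx
  have h1 : ∀ p q, sbr σ (pr σ p a) (pr σ q b) ∈ W := fun p q => by
    rw [sbr_of_hom σ (hom_pr σ hσ p a)]
    exact h p q _ _ (hom_pr σ hσ p a) (hom_pr σ hσ q b) (pr_mem σ hs q hb)
  have : sbr σ a b = sbr σ (pr σ false a) (pr σ false b) + sbr σ (pr σ false a) (pr σ true b)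
      + (sbr σ (pr σ true a) (pr σ false b) + sbr σ (pr σ true a) (pr σ true b)) := by
    rw [← map_add, ← map_add, ← LinearMap.add_apply, ← map_add, pr_add_pr, pr_add_pr]
  rw [this]
  exact W.add_mem (W.add_mem (h1 _ _) (h1 _ _)) (W.add_mem (h1 _ _) (h1 _ _))

theorem LL_br (hσ : ∀ a, σ (σ a) = a) (i : ℕ) : ∀ (j : ℕ) (u v : A), u ∈ LL σ i → v ∈ LL σ j →
    sbr σ u v ∈ LL σ (i + j + 1) := by
  induction i with
  | zero => intro j u v _ hv; rw [Nat.zero_add]; exact sbr_mem σ u hv
  | succ i ih =>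
    intro j u v hu hv
    have : LL σ (i+1) ≤ (LL σ (i+1+j+1)).comap ((sbr σ).flip v) := by
      refine LL_le σ hσ i _ (fun p q a b ha hb hbi => ?_)
      show sbr σ (D σ p a b) v ∈ LL σ (i+1+j+1)
      rw [sbr_of_hom σ (hom_D σ ha hb), jacobi σ hσ p q a b v ha hb]
      have e1 : D σ p a (D σ q b v) ∈ LL σ (i+1+j+1) := by
        rw [← sbr_of_hom σ ha, ← sbr_of_hom σ hb]
        have := sbr_mem σ a (ih j b v hbi hv)
        rwa [show i + j + 1 + 1 = i + 1 + j + 1 by ring] at this
      have e2 : D σ q b (D σ p a v) ∈ LL σ (i+1+j+1) := by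
        rw [← sbr_of_hom σ ha, ← sbr_of_hom σ hb]
        have := ih (j+1) b _ hbi (sbr_mem σ a hv)
        rwa [show i + (j + 1) + 1 = i + 1 + j + 1 by ring] at this
      exact Submodule.sub_mem _ e1 (Submodule.smul_mem _ _ e2)
    exact this hu

/-- homogeneous version -/
theorem LL_D (hσ : ∀ a, σ (σ a) = a) {i j : ℕ} {p : Bool} {u v : A} (hp : hom σ p u) (hu : u ∈ LL σ i)
    (hv : v ∈ LL σ j) : D σ p u v ∈ LL σ (i + j + 1) := by
  rw [← sbr_of_hom σ hp]; exact LL_br σ hσ i j u v hu hv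

theorem LL_D0 {j : ℕ} {p : Bool} {u v : A} (hp : hom σ p u) 
    (hv : v ∈ LL σ j) : D σ p u v ∈ LL σ (j + 1) := by
  rw [← sbr_of_hom σ hp]; exact sbr_mem σ u hv

/-- the ideal `M_3` -/
noncomputable def M3 : Submodule ℂ A := ⊤ * LL σ 2

theorem mul_mem_M3 (a : A) {h : A} (hh : h ∈ LL σ 2) : a * h ∈ M3 σ :=
  Submodule.mul_mem_mul Submodule.mem_top hh

theorem LL2_le_M3 {h : A} (hh : h ∈ LL σ 2) : h ∈ M3 σ := by
  simpa using mul_mem_M3 σ 1 hh

theorem M3_le (W : Submodule ℂ A) (h : ∀ a, ∀ x ∈ LL σ 2, a * x ∈ W) : M3 σ ≤ W :=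
  Submodule.mul_le.2 (fun a _ x hx => h a x hx)

theorem M3_mul_left (a : A) {m : A} (hm : m ∈ M3 σ) : a * m ∈ M3 σ := by
  have : M3 σ ≤ (M3 σ).comap (LinearMap.mulLeft ℂ a) := by
    refine M3_le σ _ (fun b x hx => ?_)
    show a * (b * x) ∈ M3 σ
    rw [← mul_assoc]; exact mul_mem_M3 σ _ hx
  exact this hm

theorem M3_sigma (hσ : ∀ a, σ (σ a) = a) {m : A} (hm : m ∈ M3 σ) : σ m ∈ M3 σ := by
  have : M3 σ ≤ (M3 σ).comap σ.toLinearMap := by
    refine M3_le σ _ (fun b x hx => ?_)
    show σ (b * x) ∈ M3 σ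
    rw [map_mul]; exact mul_mem_M3 σ _ (LL_sigma σ hσ 2 hx)
  exact this hm

theorem LL2_mul (hσ : ∀ a, σ (σ a) = a) {h : A} (hh : h ∈ LL σ 2) (a : A) : h * a ∈ M3 σ := by
  have key : ∀ q, pr σ q h * a ∈ M3 σ := by
    intro q
    have h1 := pr_mem σ (fun x hx => LL_sigma σ hσ 2 hx) q hh
    have h2 : D σ q (pr σ q h) a ∈ LL σ 2 := by
      have := LL_D σ hσ (hom_pr σ hσ q h) h1 (j := 0) (v := a) trivial
      exact LL_anti' σ (by norm_num) this
    have : pr σ q h * a = D σ q (pr σ q h) a + tw σ q a * pr σ q h := by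
      rw [D]; abel
    rw [this]
    exact Submodule.add_mem _ (LL2_le_M3 σ h2) (mul_mem_M3 σ _ h1)
  rw [← pr_add_pr σ h, add_mul]
  exact Submodule.add_mem _ (key _) (key _)

theorem M3_mul_right (hσ : ∀ a, σ (σ a) = a) {m : A} (hm : m ∈ M3 σ) (a : A) : m * a ∈ M3 σ := by
  have : M3 σ ≤ (M3 σ).comap (LinearMap.mulRight ℂ a) := by
    refine M3_le σ _ (fun b x hx => ?_)
    show b * x * a ∈ M3 σ
    rw [mul_assoc]; exact M3_mul_left σ _ (LL2_mul σ hσ hx a)
  exact this hm

theorem F1_zero (hσ : ∀ a, σ (σ a) = a) {m : A} (hm : m ∈ M3 σ) (v : A) : sbr σ m v ∈ LL σ 2 := by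
  have key : ∀ t, ∀ v, hom σ t v → M3 σ ≤ (LL σ 2).comap ((sbr σ).flip v) := by
    intro t v hv
    refine M3_le σ _ (fun a x hx => ?_)
    have key2 : ∀ p a, hom σ p a → LL σ 2 ≤ ((LL σ 2).comap ((sbr σ).flip v)).comap (LinearMap.mulLeft ℂ a) := by
      intro p a ha
      refine LL_le σ hσ 1 _ (fun q r b g hb hg hg1 => ?_)
      show sbr σ (a * D σ q b g) v ∈ LL σ 2
      rw [mul_D σ p q a b g ha hb, map_smul, map_sub, LinearMap.smul_apply, LinearMap.sub_apply]
      refine Submodule.smul_mem _ _ (Submodule.sub_mem _ ?_ ?_)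
      · rw [← sbr_of_hom σ hb]
        exact LL_br σ hσ 1 0 _ _ (sbr_mem σ b (k := 0) trivial) trivial
      · have hu := hom_D σ hb ha
        have hu1 : D σ q b a ∈ LL σ 1 := LL_D0 σ hb (j := 0) trivial
        rw [sbr_of_hom σ (hom_mul σ hu hg), D_mul_left σ hσ _ _ t _ _ _ hu hg hv]
        refine Submodule.add_mem _ ?_ (Submodule.smul_mem _ _ ?_)
        · exact LL_D σ hσ hu hu1 (j := 0) trivial
        · exact LL_D σ hσ hg hg1 (j := 0) trivial
    show sbr σ (a * x) v ∈ LL σ 2
    have e1 := key2 _ _ (hom_pr σ hσ false a) hx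
    have e2 := key2 _ _ (hom_pr σ hσ true a) hx
    have : sbr σ (a * x) v = sbr σ (pr σ false a * x) v + sbr σ (pr σ true a * x) v := by
      rw [← LinearMap.add_apply, ← map_add, ← add_mul, pr_add_pr]
    rw [this]
    exact Submodule.add_mem _ e1 e2
  rw [← pr_add_pr σ v, map_add]
  exact Submodule.add_mem _ (key _ _ (hom_pr σ hσ false v) hm) (key _ _ (hom_pr σ hσ true v) hm)

theorem F1 (hσ : ∀ a, σ (σ a) = a) {m : A} (hm : m ∈ M3 σ) (k : ℕ) :
    ∀ v ∈ LL σ k, sbr σ m v ∈ LL σ (k+2) := by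
  induction k with
  | zero => intro v _; exact F1_zero σ hσ hm v
  | succ k ih =>
    -- reduce to homogeneous m
    have key : ∀ t, ∀ m, hom σ t m → m ∈ M3 σ → (∀ v ∈ LL σ k, sbr σ m v ∈ LL σ (k+2)) →
        ∀ v ∈ LL σ (k+1), sbr σ m v ∈ LL σ (k+1+2) := by
      intro t m ht hm ih
      have : LL σ (k+1) ≤ (LL σ (k+1+2)).comap (sbr σ m) := by
        refine LL_le σ hσ k _ (fun p q e γ he hγ hγk => ?_)
        show sbr σ m (D σ p e γ) ∈ LL σ (k+1+2)
        have hj := jacobi σ hσ t p m e γ ht he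
        rw [sbr_of_hom σ ht]
        have : D σ t m (D σ p e γ) = D σ (xor t p) (D σ t m e) γ + ep t p • D σ p e (D σ t m γ) := by
          rw [hj]; abel
        rw [this]
        refine Submodule.add_mem _ ?_ (Submodule.smul_mem _ _ ?_)
        · have h1 : D σ t m e ∈ LL σ 2 := by rw [← sbr_of_hom σ ht]; exact F1_zero σ hσ hm e
          have := LL_D σ hσ (hom_D σ ht he) h1 hγk
          rwa [show 2 + k + 1 = k + 1 + 2 by ring] at this
        · have h1 : D σ t m γ ∈ LL σ (k+2) := by rw [← sbr_of_hom σ ht]; exact ih γ hγk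
          exact LL_D0 σ he h1
      exact fun v hv => this hv
    intro v hv
    have hp : ∀ t, sbr σ (pr σ t m) v ∈ LL σ (k+1+2) := by
      intro t
      refine key t _ (hom_pr σ hσ t m) (pr_mem σ (fun x hx => M3_sigma σ hσ hx) t hm) (fun v hv => ?_) v hv
      -- sbr (pr t m) v in terms of sbr m v, and sigma
      rw [pr_apply, map_smul, map_add, map_smul, LinearMap.smul_apply, LinearMap.add_apply, LinearMap.smul_apply]
      refine Submodule.smul_mem _ _ (Submodule.add_mem _ (ih v hv) (Submodule.smul_mem _ _ ?_))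
      have : sbr σ (σ m) v = σ (sbr σ m (σ v)) := by rw [sigma_sbr σ hσ, hσ]
      rw [this]
      exact LL_sigma σ hσ _ (ih _ (LL_sigma σ hσ _ hv))
    have : sbr σ m v = sbr σ (pr σ false m) v + sbr σ (pr σ true m) v := by
      rw [← LinearMap.add_apply, ← map_add, pr_add_pr]
    rw [this]
    exact Submodule.add_mem _ (hp _) (hp _)

theorem F1_right (hσ : ∀ a, σ (σ a) = a) {m : A} (hm : m ∈ M3 σ) (g : A) : sbr σ g m ∈ LL σ 2 := by
  have key : ∀ p q, sbr σ (pr σ p g) (pr σ q m) ∈ LL σ 2 := by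
    intro p q
    rw [sbr_of_hom σ (hom_pr σ hσ p g), antisym σ p q _ _ (hom_pr σ hσ p g) (hom_pr σ hσ q m)]
    refine Submodule.neg_mem _ (Submodule.smul_mem _ _ ?_)
    rw [← sbr_of_hom σ (hom_pr σ hσ q m)]
    exact F1_zero σ hσ (pr_mem σ (fun x hx => M3_sigma σ hσ hx) q hm) _
  have : sbr σ g m = sbr σ (pr σ false g) (pr σ false m) + sbr σ (pr σ false g) (pr σ true m)
      + (sbr σ (pr σ true g) (pr σ false m) + sbr σ (pr σ true g) (pr σ true m)) := by
    rw [← map_add, ← map_add, ← LinearMap.add_apply, ← map_add, pr_add_pr, pr_add_pr]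
  rw [this]
  exact Submodule.add_mem _ (Submodule.add_mem _ (key _ _) (key _ _)) (Submodule.add_mem _ (key _ _) (key _ _))

end Pool.Agent.H569_LCS
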