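import Pool.Agent.H569_LCS.Free
set_option autoImplicit false
set_option linter.unusedSimpArgs false
set_option linter.unusedVariables false
set_option linter.unusedSectionVars false
namespace Pool.Agent.H569_LCS

variable {ι : Type} [DecidableEq ι]

/-- twisted derivations of the free algebra through upper triangular matrices -/
noncomputable def dmat (τ : FreeAlgebra ℂ ι →ₐ[ℂ] FreeAlgebra ℂ ι) (v : ι → FreeAlgebra ℂ ι) :
    FreeAlgebra ℂ ι →ₐ[ℂ] Matrix (Fin 2) (Fin 2) (FreeAlgebra ℂ ι) :=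
  FreeAlgebra.lift ℂ (fun x => !![τ (FreeAlgebra.ι ℂ x), v x; 0, FreeAlgebra.ι ℂ x])

theorem dmat_entries (τ : FreeAlgebra ℂ ι →ₐ[ℂ] FreeAlgebra ℂ ι) (v : ι → FreeAlgebra ℂ ι)
    (a : FreeAlgebra ℂ ι) : dmat τ v a 0 0 = τ a ∧ dmat τ v a 1 0 = 0 ∧ dmat τ v a 1 1 = a := by
  induction a using FreeAlgebra.induction with
  | grade0 r =>
    rw [AlgHom.commutes, AlgHom.commutes]
    simp [Matrix.algebraMap_matrix_apply]
  | grade1 x => simp [dmat]
  | mul a b ha hb =>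
    rw [map_mul, map_mul]
    simp only [Matrix.mul_apply, Fin.sum_univ_two]
    rw [ha.1, ha.2.1, ha.2.2, hb.1, hb.2.1, hb.2.2]
    simp
  | add a b ha hb =>
    rw [map_add, map_add]
    simp only [Matrix.add_apply]
    rw [ha.1, ha.2.1, ha.2.2, hb.1, hb.2.1, hb.2.2]
    simp

/-- the `τ`-derivation with prescribed values on the generators -/
noncomputable def der (τ : FreeAlgebra ℂ ι →ₐ[ℂ] FreeAlgebra ℂ ι) (v : ι → FreeAlgebra ℂ ι) :
    FreeAlgebra ℂ ι →ₗ[ℂ] FreeAlgebra ℂ ι where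
  toFun a := dmat τ v a 0 1
  map_add' a b := by rw [map_add]; rfl
  map_smul' c a := by rw [map_smul]; rfl

theorem der_ι (τ : FreeAlgebra ℂ ι →ₐ[ℂ] FreeAlgebra ℂ ι) (v : ι → FreeAlgebra ℂ ι) (x : ι) :
    der τ v (FreeAlgebra.ι ℂ x) = v x := by
  show dmat τ v (FreeAlgebra.ι ℂ x) 0 1 = v x
  simp [dmat]

theorem der_algebraMap (τ : FreeAlgebra ℂ ι →ₐ[ℂ] FreeAlgebra ℂ ι) (v : ι → FreeAlgebra ℂ ι) (r : ℂ) :
    der τ v (algebraMap ℂ _ r) = 0 := by
  show dmat τ v (algebraMap ℂ _ r) 0 1 = 0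
  rw [AlgHom.commutes]
  simp [Matrix.algebraMap_matrix_apply]

theorem der_mul (τ : FreeAlgebra ℂ ι →ₐ[ℂ] FreeAlgebra ℂ ι) (v : ι → FreeAlgebra ℂ ι)
    (a b : FreeAlgebra ℂ ι) : der τ v (a * b) = der τ v a * b + τ a * der τ v b := by
  show dmat τ v (a * b) 0 1 = dmat τ v a 0 1 * b + τ a * dmat τ v b 0 1
  rw [map_mul, Matrix.mul_apply, Fin.sum_univ_two, (dmat_entries τ v a).1, (dmat_entries τ v b).2.2]
  abel

theorem der_one (τ : FreeAlgebra ℂ ι →ₐ[ℂ] FreeAlgebra ℂ ι) (v : ι → FreeAlgebra ℂ ι) :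
    der τ v 1 = 0 := by
  rw [← map_one (algebraMap ℂ (FreeAlgebra ℂ ι))]; exact der_algebraMap τ v 1

/-- parity automorphism -/
noncomputable def sig (par : ι → Bool) : FreeAlgebra ℂ ι →ₐ[ℂ] FreeAlgebra ℂ ι :=
  FreeAlgebra.lift ℂ (fun x => sg (par x) • FreeAlgebra.ι ℂ x)

variable (par : ι → Bool)

theorem sig_ι (x : ι) : sig par (FreeAlgebra.ι ℂ x) = sg (par x) • FreeAlgebra.ι ℂ x := by
  simp [sig]

theorem sg_mul_self (p : Bool) : sg p * sg p = 1 := by cases p <;> simp [sg]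

theorem sg_xor (p q : Bool) : sg (xor p q) = sg p * sg q := by cases p <;> cases q <;> simp [sg]

theorem sig_sig (a : FreeAlgebra ℂ ι) : sig par (sig par a) = a := by
  induction a using FreeAlgebra.induction with
  | grade0 r => rw [AlgHom.commutes, AlgHom.commutes]
  | grade1 x => rw [sig_ι, map_smul, sig_ι, smul_smul, sg_mul_self, one_smul]
  | mul a b ha hb => rw [map_mul, map_mul, ha, hb]
  | add a b ha hb => rw [map_add, map_add, ha, hb]

/-- number of odd letters -/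
noncomputable def np [Fintype ι] (d : ι →₀ ℕ) : ℕ := ∑ x, (bif par x then d x else 0)

/-- parity of a multidegree -/
noncomputable def pp [Fintype ι] (d : ι →₀ ℕ) : Bool := Nat.bodd (np par d)

theorem np_add [Fintype ι] (d e : ι →₀ ℕ) : np par (d + e) = np par d + np par e := by
  simp only [np, ← Finset.sum_add_distrib]
  refine Finset.sum_congr rfl (fun x _ => ?_)
  cases par x <;> simp

theorem np_single [Fintype ι] (x : ι) (n : ℕ) : np par (Finsupp.single x n) = bif par x then n else 0 := by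
  rw [np, Finset.sum_eq_single x]
  · simp
  · intro y _ hy
    rw [Finsupp.single_apply, if_neg (Ne.symm hy)]; cases par y <;> rfl
  · intro h; exact absurd (Finset.mem_univ _) h

theorem pp_add [Fintype ι] (d e : ι →₀ ℕ) : pp par (d + e) = xor (pp par d) (pp par e) := by
  rw [pp, np_add, Nat.bodd_add]; rfl

theorem pp_single_one [Fintype ι] (x : ι) : pp par (Finsupp.single x 1) = par x := by
  rw [pp, np_single]; cases par x <;> rfl

theorem pp_zero [Fintype ι] : pp par 0 = false := by simp [pp, np]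

theorem sig_wd [Fintype ι] (w : FreeMonoid ι) : sig par (wd w) = sg (pp par (dg w)) • wd w := by
  induction w using FreeMonoid.recOn with
  | one => rw [map_one, map_one, dg_one, pp_zero]; simp [sg]
  | of_mul x w ih =>
    rw [map_mul, map_mul, ih, wd_of, sig_ι, dg_mul, dg_of, pp_add, pp_single_one, sg_xor]
    rw [smul_mul_smul_comm]

theorem hom_G [Fintype ι] {d : ι →₀ ℕ} {x : FreeAlgebra ℂ ι} (hx : x ∈ G d) :
    hom (sig par) (pp par d) x := by
  rw [hom_iff]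
  have : G d ≤ LinearMap.ker ((sig par).toLinearMap - sg (pp par d) • LinearMap.id) := by
    refine G_le (fun w hw => ?_)
    simp [sig_wd, hw]
  have := this hx
  simpa [sub_eq_zero] using this

theorem sig_G [Fintype ι] {d : ι →₀ ℕ} {x : FreeAlgebra ℂ ι} (hx : x ∈ G d) : sig par x ∈ G d := by
  have := hom_G par hx
  rw [hom_iff] at this
  rw [this]; exact Submodule.smul_mem _ _ hx

theorem tw_G [Fintype ι] (p : Bool) {d : ι →₀ ℕ} {x : FreeAlgebra ℂ ι} (hx : x ∈ G d) : tw (sig par) p x ∈ G d := by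
  cases p
  · exact hx
  · exact sig_G par hx

theorem D_G [Fintype ι] (p : Bool) {d e : ι →₀ ℕ} {x y : FreeAlgebra ℂ ι} (hx : x ∈ G d) (hy : y ∈ G e) :
    D (sig par) p x y ∈ G (d + e) := by
  refine Submodule.sub_mem _ (G_mul hx hy) ?_
  rw [add_comm]
  exact G_mul (tw_G par p hy) hx

theorem sbr_G [Fintype ι] {d e : ι →₀ ℕ} {x y : FreeAlgebra ℂ ι} (hx : x ∈ G d) (hy : y ∈ G e) :
    sbr (sig par) x y ∈ G (d + e) := by
  rw [sbr_of_hom _ (hom_G par hx)]
  exact D_G par _ hx hy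

/-- even derivations acting on the bracket -/
theorem even_sbr (σ : FreeAlgebra ℂ ι →ₐ[ℂ] FreeAlgebra ℂ ι) (X : FreeAlgebra ℂ ι →ₗ[ℂ] FreeAlgebra ℂ ι)
    (hX : ∀ a b, X (a * b) = X a * b + a * X b) (hXσ : ∀ a, X (σ a) = σ (X a)) (a b : FreeAlgebra ℂ ι) :
    X (sbr σ a b) = sbr σ (X a) b + sbr σ a (X b) := by
  simp only [sbr_apply, D, tw, pr_apply, sg, cond_true, cond_false, map_add, map_sub, map_smul, hX, hXσ, smul_add,
    mul_add, add_mul, smul_mul_assoc, mul_smul_comm, smul_sub]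
  module

/-- odd derivations acting on the bracket -/
theorem odd_sbr (σ : FreeAlgebra ℂ ι →ₐ[ℂ] FreeAlgebra ℂ ι) (hσ : ∀ a, σ (σ a) = a)
    (X : FreeAlgebra ℂ ι →ₗ[ℂ] FreeAlgebra ℂ ι)
    (hX : ∀ a b, X (a * b) = X a * b + σ a * X b) (hXσ : ∀ a, X (σ a) = - σ (X a)) (a b : FreeAlgebra ℂ ι) :
    X (sbr σ a b) = sbr σ (X a) b + sbr σ (σ a) (X b) := by
  simp only [sbr_apply, D, tw, pr_apply, sg, cond_true, cond_false, map_add, map_sub, map_smul, map_neg, hX, hXσ, hσ, smul_add,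
    mul_add, add_mul, smul_mul_assoc, mul_smul_comm, smul_sub, mul_neg, neg_mul, smul_neg]
  module

theorem LL_stable (σ : FreeAlgebra ℂ ι →ₐ[ℂ] FreeAlgebra ℂ ι) (X : FreeAlgebra ℂ ι →ₗ[ℂ] FreeAlgebra ℂ ι)
    (θ : FreeAlgebra ℂ ι → FreeAlgebra ℂ ι)
    (h : ∀ a b, X (sbr σ a b) = sbr σ (X a) b + sbr σ (θ a) (X b)) (k : ℕ) :
    ∀ x ∈ LL σ k, X x ∈ LL σ k := by
  induction k with
  | zero => intro x _; trivial
  | succ k ih =>
    have : LL σ (k+1) ≤ (LL σ (k+1)).comap X := by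
      refine Submodule.map₂_le.2 (fun a _ b hb => ?_)
      show X (sbr σ a b) ∈ LL σ (k+1)
      rw [h]
      exact Submodule.add_mem _ (sbr_mem σ _ hb) (sbr_mem σ _ (ih b hb))
    exact fun x hx => this hx

end Pool.Agent.H569_LCS
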