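
import Mathlib
set_option autoImplicit false
namespace Pool.Agent.H569_J1
open Finsupp

/-- repeated use of the hypothesis -/
theorem H442_path {ι : Type} [Fintype ι] [DecidableEq ι] (π : ι → ℕ) (hπ : ∀ i, π i = 1 ∨ π i = 2)
    (f : (ι →₀ ℕ) → ℕ) (N₀ : ℕ)
    (h : ∀ (i : ι) (d : ι →₀ ℕ), N₀ ≤ d i → f (d + Finsupp.single i (π i)) ≤ f d) :
    ∀ (k : ℕ) (d e : ι →₀ ℕ), (∑ v, (e v - d v)) ≤ k →
      (∀ v, (∃ n, e v = d v + n * π v) ∧ (e v ≠ d v → N₀ ≤ d v)) → f e ≤ f d := by
  intro k
  induction k with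
  | zero =>
    intro d e hk hde
    have h1 : e = d := by
      ext v
      have h2 : ∑ v, (e v - d v) = 0 := by omega
      rw [Finset.sum_eq_zero_iff] at h2
      have h3 := h2 v (Finset.mem_univ v)
      obtain ⟨n, hn⟩ := (hde v).1
      omega
    rw [h1]
  | succ k ih =>
    intro d e hk hde
    by_cases hed : ∀ v, e v = d v
    · have h1 : e = d := by ext v; exact hed v
      rw [h1]
    · push Not at hed
      obtain ⟨v, hv⟩ := hed
      have hN := (hde v).2 hv
      have hstep := h v d hN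
      have hpos : 1 ≤ π v := by rcases hπ v with h | h <;> omega
      obtain ⟨n, hn⟩ := (hde v).1
      have hn1 : 1 ≤ n := by
        rcases Nat.eq_zero_or_pos n with h0 | h0
        · subst h0; simp at hn; exact absurd hn hv
        · exact h0
      obtain ⟨n', rfl⟩ : ∃ n', n = n' + 1 := ⟨n - 1, by omega⟩
      have hev : e v = d v + π v + n' * π v := by rw [hn]; ring
      refine (ih (d + Finsupp.single v (π v)) e ?_ ?_).trans hstep
      · have h1 : ∑ w, (e w - (d + Finsupp.single v (π v)) w) < ∑ w, (e w - d w) := by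
          apply Finset.sum_lt_sum
          · intro w _
            simp only [Finsupp.add_apply]
            omega
          · refine ⟨v, Finset.mem_univ v, ?_⟩
            simp only [Finsupp.add_apply, Finsupp.single_eq_same]
            omega
        omega
      · intro w
        by_cases hw : w = v
        · subst hw
          simp only [Finsupp.add_apply, Finsupp.single_eq_same]
          exact ⟨⟨n', hev⟩, fun _ => by omega⟩
        · have h0 : (Finsupp.single v (π v) : ι →₀ ℕ) w = 0 := by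
            rw [Finsupp.single_apply, if_neg (fun h => hw h.symm)]
          simp only [Finsupp.add_apply, h0, add_zero]
          exact hde w

/-- the relation on one coordinate -/
def H442_rel (N₀ : ℕ) (a b : ℕ) : Prop := a ≤ b ∧ a % 2 = b % 2 ∧ (a < N₀ → a = b)

theorem H442_wqo (N₀ : ℕ) : WellQuasiOrdered (H442_rel N₀) := by
  have h1 : WellQuasiOrdered (fun a b : ℕ => a ≤ b) := wellQuasiOrdered_le
  have h2 : WellQuasiOrdered (fun a b : Fin 2 × Fin (N₀ + 1) => a = b) :=
    Finite.wellQuasiOrdered _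
  have h3 := h1.prod h2
  intro f
  obtain ⟨m, n, hmn, h4, h5⟩ := h3 (fun n => (f n, ((⟨f n % 2, Nat.mod_lt _ (by norm_num)⟩ : Fin 2),
    (⟨min (f n) N₀, by omega⟩ : Fin (N₀ + 1)))))
  refine ⟨m, n, hmn, h4, ?_, ?_⟩
  · have := congrArg (fun p : Fin 2 × Fin (N₀ + 1) => (p.1 : ℕ)) h5
    exact this
  · intro hlt
    have h6 : min (f m) N₀ = min (f n) N₀ := congrArg (fun p : Fin 2 × Fin (N₀ + 1) => (p.2 : ℕ)) h5
    omega

instance H442_pre (N₀ : ℕ) : IsPreorder ℕ (H442_rel N₀) where
  refl a := ⟨le_refl a, rfl, fun _ => rfl⟩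
  trans a b c := by
    rintro ⟨h1, h2, h3⟩ ⟨h4, h5, h6⟩
    exact ⟨h1.trans h4, h2.trans h5, fun h => by have := h3 h; have := h6 (by omega); omega⟩

theorem TARGET {ι : Type} [Fintype ι] [DecidableEq ι] (π : ι → ℕ) (hπ : ∀ i, π i = 1 ∨ π i = 2)
    (f : (ι →₀ ℕ) → ℕ) (N₀ : ℕ)
    (h : ∀ (i : ι) (d : ι →₀ ℕ), N₀ ≤ d i → f (d + Finsupp.single i (π i)) ≤ f d) :
    ∃ N : ℕ, ∀ (i : ι) (d : ι →₀ ℕ), N ≤ d i → f (d + Finsupp.single i (π i)) = f d := by
  by_contra hcon
  push Not at hcon
  -- one bad direction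
  have hi : ∃ i : ι, ∀ N : ℕ, ∃ d : ι →₀ ℕ, N ≤ d i ∧ f (d + Finsupp.single i (π i)) ≠ f d := by
    by_contra hno
    push Not at hno
    choose N hN using hno
    obtain ⟨i, d, hd, hne⟩ := hcon (∑ i, N i)
    exact hne (hN i d ((Finset.single_le_sum (f := N) (fun _ _ => Nat.zero_le _)
      (Finset.mem_univ i)).trans hd))
  obtain ⟨i, hi⟩ := hi
  choose D hD using fun N => hi (max N N₀)
  have hD1 : ∀ N, N ≤ D N i := fun N => (le_max_left _ _).trans (hD N).1
  have hD2 : ∀ N, f (D N + Finsupp.single i (π i)) < f (D N) := fun N =>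
    lt_of_le_of_ne (h i (D N) ((le_max_right _ _).trans (hD N).1)) (hD N).2
  -- a good subsequence
  have hw : WellQuasiOrdered (fun a b : ι → ℕ => ∀ v, H442_rel N₀ (a v) (b v)) :=
    WellQuasiOrdered.pi (fun _ => H442_wqo N₀)
  have hpre : IsPreorder (ι → ℕ) (fun a b : ι → ℕ => ∀ v, H442_rel N₀ (a v) (b v)) :=
    { refl := fun a v => (H442_pre N₀).refl (a v)
      trans := fun a b c h1 h2 v => (H442_pre N₀).trans _ _ _ (h1 v) (h2 v) }
  obtain ⟨g, hg⟩ := hw.exists_monotone_subseq (fun N v => D N v)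
  -- a minimum
  obtain ⟨j, hj⟩ : ∃ j, ∀ l, f (D (g j)) ≤ f (D (g l)) := by
    obtain ⟨m, ⟨j, hj⟩, hm⟩ := WellFounded.has_min (wellFounded_lt (α := ℕ))
      (Set.range fun j => f (D (g j))) ⟨_, ⟨0, rfl⟩⟩
    refine ⟨j, fun l => ?_⟩
    have := hm (f (D (g l))) ⟨l, rfl⟩
    simp only at hj
    omega
  set l := D (g j) i + 1 + j with hl
  have hr := hg j l (by omega)
  have hgl : l ≤ g l := g.strictMono.le_apply
  have hlt : D (g j) i < D (g l) i := by
    have := hD1 (g l)
    omega
  have hfin : f (D (g l)) ≤ f (D (g j) + Finsupp.single i (π i)) := by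
    refine H442_path π hπ f N₀ h _ _ _ le_rfl ?_
    intro v
    obtain ⟨h1, h2, h3⟩ := hr v
    beta_reduce at h1 h2 h3
    by_cases hv : v = i
    · subst hv
      simp only [Finsupp.add_apply, Finsupp.single_eq_same]
      refine ⟨?_, fun _ => ?_⟩
      · rcases hπ v with h4 | h4
        · refine ⟨D (g l) v - D (g j) v - 1, ?_⟩
          rw [h4]; omega
        · refine ⟨(D (g l) v - D (g j) v) / 2 - 1, ?_⟩
          rw [h4]; omega
      · have : ¬ D (g j) v < N₀ := fun h5 => by have := h3 h5; omega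
        omega
    · have h0 : (Finsupp.single i (π i) : ι →₀ ℕ) v = 0 := by
        rw [Finsupp.single_apply, if_neg (fun h => hv h.symm)]
      simp only [Finsupp.add_apply, h0, add_zero]
      refine ⟨?_, fun hne => ?_⟩
      · rcases hπ v with h4 | h4
        · refine ⟨D (g l) v - D (g j) v, ?_⟩
          rw [h4]; omega
        · refine ⟨(D (g l) v - D (g j) v) / 2, ?_⟩
          rw [h4]; omega
      · by_contra h5
        have := h3 (by omega)
        exact hne this.symm
  have := hD2 (g j)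
  have := hj l
  omega

end Pool.Agent.H569_J1
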