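import Mathlib
set_option autoImplicit false
namespace Pool.Agent.H569_J2a
open Finsupp

theorem TARGET {ι : Type} [DecidableEq ι] (i : ι) (f g : (ι →₀ ℕ) → ℕ) (N : ℕ)
    (h2 : ∀ d : ι →₀ ℕ, N ≤ d i → f (d + Finsupp.single i 2) = f d)
    (hfg : ∀ d : ι →₀ ℕ, f (d + Finsupp.single i 1) = g (d + Finsupp.single i 1) + g d) :
    ∀ d : ι →₀ ℕ, N ≤ d i → f (d + Finsupp.single i 1) = f d := by
  intro d hd
  -- a j = f (d + j e)
  set a : ℕ → ℕ := fun j => f (d + Finsupp.single i j) with ha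
  set b : ℕ → ℕ := fun j => g (d + Finsupp.single i j) with hb
  have h0 : a 0 = f d := by simp [ha]
  have h1 : a 1 = f (d + Finsupp.single i 1) := rfl
  have ha2 : ∀ j, a (j + 2) = a j := by
    intro j
    have := h2 (d + Finsupp.single i j) (by simp; omega)
    simp only [ha]
    rw [← this, add_assoc, ← Finsupp.single_add]
  have hab : ∀ j, a (j + 1) = b (j + 1) + b j := by
    intro j
    have := hfg (d + Finsupp.single i j)
    simp only [ha, hb]
    rw [add_assoc, ← Finsupp.single_add] at this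
    exact this
  have he : ∀ k, a (2 * k) = a 0 ∧ a (2 * k + 1) = a 1 := by
    intro k
    induction k with
    | zero => simp
    | succ k ih =>
      refine ⟨?_, ?_⟩
      · rw [show 2 * (k + 1) = 2 * k + 2 by ring, ha2, ih.1]
      · rw [show 2 * (k + 1) + 1 = (2 * k + 1) + 2 by ring, ha2, ih.2]
  have hb2 : ∀ k, (b (2 * k) : ℤ) = b 0 + k * ((a 0 : ℤ) - a 1) ∧
      (b (2 * k + 1) : ℤ) = b 1 + k * ((a 1 : ℤ) - a 0) := by
    intro k
    induction k with
    | zero => simp
    | succ k ih =>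
      have e1 := hab (2 * k)
      have e2 := hab (2 * k + 1)
      have e3 := hab (2 * k + 2)
      have f1 := (he k).2
      have f2 := (he (k + 1)).1
      have f3 := (he (k + 1)).2
      rw [show 2 * (k + 1) = 2 * k + 2 by ring] at f2 f3 ⊢
      rw [show 2 * k + 1 + 1 = 2 * k + 2 by ring] at e2
      have e1' : (a (2 * k + 1) : ℤ) = b (2 * k + 1) + b (2 * k) := by exact_mod_cast e1
      have e2' : (a (2 * k + 2) : ℤ) = b (2 * k + 2) + b (2 * k + 1) := by exact_mod_cast e2
      have e3' : (a (2 * k + 2 + 1) : ℤ) = b (2 * k + 2 + 1) + b (2 * k + 2) := by exact_mod_cast e3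
      rw [f1] at e1'
      rw [f2] at e2'
      rw [f3] at e3'
      push_cast
      refine ⟨?_, ?_⟩
      · linear_combination ih.1 + e1' - e2'
      · linear_combination ih.2 + e2' - e3'
  rw [← h1, ← h0]
  have p1 := (hb2 (b 0 + b 1 + 1)).1
  have p2 := (hb2 (b 0 + b 1 + 1)).2
  have q1 : (0 : ℤ) ≤ b (2 * (b 0 + b 1 + 1)) := Int.natCast_nonneg _
  have q2 : (0 : ℤ) ≤ b (2 * (b 0 + b 1 + 1) + 1) := Int.natCast_nonneg _
  rw [p1] at q1
  rw [p2] at q2
  push_cast at q1 q2
  have r0 : (0 : ℤ) ≤ b 0 := Int.natCast_nonneg _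
  have r1 : (0 : ℤ) ≤ b 1 := Int.natCast_nonneg _
  have s : (a 1 : ℤ) = a 0 := by
    rcases lt_trichotomy (a 1 : ℤ) (a 0) with h | h | h
    · exfalso
      nlinarith
    · exact h
    · exfalso
      nlinarith
  exact_mod_cast s

end Pool.Agent.H569_J2a
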