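import Mathlib
set_option autoImplicit false
namespace Pool.Agent.H569_J2b
open Finsupp

theorem zero_mul_one_sub_X {ι : Type} [Fintype ι] [DecidableEq ι] (g : MvPowerSeries ι ℤ) (M : ℕ)
    (i v : ι) (hiv : v ≠ i)
    (hg : ∀ d : ι →₀ ℕ, M ≤ d i → MvPowerSeries.coeff d g = 0) :
    ∀ d : ι →₀ ℕ, M ≤ d i → MvPowerSeries.coeff d (g * (1 - MvPowerSeries.X v)) = 0 := by
  intro d hd
  rw [mul_sub, mul_one, map_sub, MvPowerSeries.X, MvPowerSeries.coeff_mul_monomial, hg d hd]
  split_ifs with h
  · rw [hg (d - single v 1) (by simpa [Finsupp.single_apply, hiv] using hd)]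
    simp
  · simp

theorem zero_mul_prod {ι : Type} [Fintype ι] [DecidableEq ι] (g : MvPowerSeries ι ℤ) (M : ℕ)
    (i : ι) (S : Finset ι) (hi : i ∉ S)
    (hg : ∀ d : ι →₀ ℕ, M ≤ d i → MvPowerSeries.coeff d g = 0) :
    ∀ d : ι →₀ ℕ, M ≤ d i →
      MvPowerSeries.coeff d (g * ∏ s ∈ S, (1 - MvPowerSeries.X s)) = 0 := by
  induction S using Finset.induction_on with
  | empty => simpa using hg
  | insert a S ha ih =>
    have hai : a ≠ i := fun h => hi (by simp [h])
    have hiS : i ∉ S := fun h => hi (by simp [h])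
    have h1 := zero_mul_one_sub_X _ M i a hai (ih hiS)
    intro d hd
    rw [Finset.prod_insert ha, mul_comm (1 - MvPowerSeries.X a), ← mul_assoc]
    exact h1 d hd

/- Plain words proof: for s : ι let B s M (h) say: coeff d h = 0 whenever M ≤ d s.  Multiplying h by (1 - X v)
keeps B s M up to M+1 (coeff d (h * (1 - X v)) = coeff d h - coeff (d - e_v) h).  Multiplying f by (1 - X s) gives
B s (N+1) by the hypothesis.  As the product is commutative, the full product has B s M for every s and one
common M, so it has finite support (d ≤ M in every coordinate) and is a polynomial (MvPolynomial coerced;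
e.g. via MvPowerSeries.trunc' or an explicit Finsupp sum, MvPolynomial.coeff_coe). -/
theorem TARGET {ι : Type} [Fintype ι] [DecidableEq ι] (f : MvPowerSeries ι ℤ) (N : ℕ)
    (h : ∀ (i : ι) (d : ι →₀ ℕ), N ≤ d i →
      MvPowerSeries.coeff (d + Finsupp.single i 1) f = MvPowerSeries.coeff d f) :
    ∃ p : MvPolynomial ι ℤ, f * ∏ s : ι, (1 - MvPowerSeries.X s) = (p : MvPowerSeries ι ℤ) := by
  have key : ∀ (i : ι) (d : ι →₀ ℕ), N + 1 ≤ d i →
      MvPowerSeries.coeff d (f * ∏ s : ι, (1 - MvPowerSeries.X s)) = 0 := by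
    intro i d hd
    have hg : ∀ d : ι →₀ ℕ, N + 1 ≤ d i →
        MvPowerSeries.coeff d (f * (1 - MvPowerSeries.X i)) = 0 := by
      intro d hd
      rw [mul_sub, mul_one, map_sub, MvPowerSeries.X, MvPowerSeries.coeff_mul_monomial]
      have hle : single i 1 ≤ d := by
        rw [Finsupp.single_le_iff]; omega
      rw [if_pos hle, mul_one]
      have h2 := h i (d - single i 1) (by simp; omega)
      rw [tsub_add_cancel_of_le hle] at h2
      rw [h2, sub_self]
    have h3 := zero_mul_prod (f * (1 - MvPowerSeries.X i)) (N + 1) i (Finset.univ.erase i)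
      (by simp) hg d hd
    rw [mul_assoc, Finset.mul_prod_erase Finset.univ (fun s => 1 - MvPowerSeries.X s)
      (Finset.mem_univ i)] at h3
    exact h3
  refine ⟨MvPowerSeries.trunc' ℤ (Finsupp.equivFunOnFinite.symm fun _ => N)
    (f * ∏ s : ι, (1 - MvPowerSeries.X s)), ?_⟩
  ext d
  rw [MvPolynomial.coeff_coe, MvPowerSeries.coeff_trunc']
  split_ifs with hd
  · rfl
  · have : ∃ i, N + 1 ≤ d i := by
      by_contra hcon
      push Not at hcon
      apply hd
      intro i
      have := hcon i
      simp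
      omega
    obtain ⟨i, hi⟩ := this
    exact key i d hi

end Pool.Agent.H569_J2b
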