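
import Mathlib
set_option autoImplicit false
namespace Pool.Agent.H569_J4a
open Module

/-  X induces a surjective map U/U' → T/T'. -/
theorem TARGET {V : Type} [AddCommGroup V] [Module ℂ V] (X : V →ₗ[ℂ] V)
    (U U' T T' : Submodule ℂ V) [FiniteDimensional ℂ U] [FiniteDimensional ℂ T]
    (hU : U' ≤ U) (hT : T' ≤ T) (h1 : ∀ u ∈ U', X u ∈ T') (h2 : ∀ t ∈ T, ∃ u ∈ U, t - X u ∈ T') :
    finrank ℂ T + finrank ℂ U' ≤ finrank ℂ U + finrank ℂ T' := by
  let f : U →ₗ[ℂ] (V ⧸ T') := T'.mkQ ∘ₗ X ∘ₗ U.subtype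
  let g : T →ₗ[ℂ] (V ⧸ T') := T'.mkQ ∘ₗ T.subtype
  have hf := f.finrank_range_add_finrank_ker
  have hg := g.finrank_range_add_finrank_ker
  have hkg : LinearMap.ker g = T'.submoduleOf T := by
    ext x
    simp [g, Submodule.submoduleOf, Submodule.Quotient.mk_eq_zero]
  have hkf : U'.submoduleOf U ≤ LinearMap.ker f := by
    intro x hx
    have hx' : (x : V) ∈ U' := by simpa [Submodule.submoduleOf] using hx
    have := h1 _ hx'
    simpa [f, Submodule.Quotient.mk_eq_zero] using this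
  have e1 : finrank ℂ (U'.submoduleOf U) = finrank ℂ U' :=
    LinearEquiv.finrank_eq (Submodule.submoduleOfEquivOfLe hU)
  have e2 : finrank ℂ (T'.submoduleOf T) = finrank ℂ T' :=
    LinearEquiv.finrank_eq (Submodule.submoduleOfEquivOfLe hT)
  have hr : LinearMap.range g ≤ LinearMap.range f := by
    rintro _ ⟨t, rfl⟩
    obtain ⟨u, hu, hut⟩ := h2 t.1 t.2
    refine ⟨⟨u, hu⟩, ?_⟩
    have h3 : T'.mkQ ((t : V) - X u) = 0 := by
      rw [Submodule.mkQ_apply]
      exact (Submodule.Quotient.mk_eq_zero T').mpr hut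
    rw [map_sub, sub_eq_zero] at h3
    simpa [f, g] using h3.symm
  have hle1 : finrank ℂ (LinearMap.range g) ≤ finrank ℂ (LinearMap.range f) :=
    Submodule.finrank_mono hr
  have hle2 : finrank ℂ (U'.submoduleOf U) ≤ finrank ℂ (LinearMap.ker f) :=
    Submodule.finrank_mono hkf
  rw [hkg] at hg
  omega


end Pool.Agent.H569_J4a
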