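import Mathlib
set_option autoImplicit false
namespace Pool.Agent.H569_J4b
open Module

/-  consider the map U1 → V/K, u ↦ D u mod K.  Its kernel is Z1 = U1 ⊓ comap D K; its range is
(Z0 + K)/K with Z0 = U0 ⊓ comap D K (by hDD, hex), which is Z0/(Z0 ⊓ K) = Z0/(U0 ⊓ K) (as K ≤ comap D K by hK).
Rank-nullity gives the formula. -/
theorem TARGET {V : Type} [AddCommGroup V] [Module ℂ V] (D : V →ₗ[ℂ] V)
    (K U0 U1 : Submodule ℂ V) [FiniteDimensional ℂ U0] [FiniteDimensional ℂ U1]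
    (hD : ∀ u ∈ U1, D u ∈ U0) (hDD : ∀ u ∈ U1, D (D u) ∈ K)
    (hex : ∀ z ∈ U0, D z ∈ K → ∃ u ∈ U1, D u - z ∈ K) (hK : ∀ x ∈ K, D x ∈ K) :
    finrank ℂ U1 + finrank ℂ (U0 ⊓ K : Submodule ℂ V)
      = finrank ℂ (U1 ⊓ K.comap D : Submodule ℂ V) + finrank ℂ (U0 ⊓ K.comap D : Submodule ℂ V) := by
  classical
  let f : U1 →ₗ[ℂ] V ⧸ K := (K.mkQ ∘ₗ D) ∘ₗ U1.subtype
  let Z0 : Submodule ℂ V := U0 ⊓ K.comap D
  have : FiniteDimensional ℂ Z0 := Submodule.finiteDimensional_of_le (inf_le_left : Z0 ≤ U0)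
  let g : Z0 →ₗ[ℂ] V ⧸ K := K.mkQ ∘ₗ Z0.subtype
  have hf := LinearMap.finrank_range_add_finrank_ker f
  have hg := LinearMap.finrank_range_add_finrank_ker g
  have hkf : (LinearMap.ker f).map U1.subtype = U1 ⊓ K.comap D := by
    ext x
    simp only [Submodule.mem_map, LinearMap.mem_ker, Submodule.mem_inf, Submodule.mem_comap]
    constructor
    · rintro ⟨y, hy, rfl⟩
      refine ⟨y.2, ?_⟩
      have : K.mkQ (D y) = 0 := hy
      simpa using this
    · rintro ⟨h1, h2⟩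
      refine ⟨⟨x, h1⟩, ?_, rfl⟩
      show K.mkQ (D x) = 0
      simpa using h2
  have hkg : (LinearMap.ker g).map Z0.subtype = U0 ⊓ K := by
    ext x
    simp only [Submodule.mem_map, LinearMap.mem_ker, Submodule.mem_inf]
    constructor
    · rintro ⟨y, hy, rfl⟩
      refine ⟨y.2.1, ?_⟩
      have : K.mkQ (y : V) = 0 := hy
      simpa using this
    · rintro ⟨h1, h2⟩
      refine ⟨⟨x, h1, hK x h2⟩, ?_, rfl⟩
      show K.mkQ x = 0
      simpa using h2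
  have hrange : LinearMap.range f = LinearMap.range g := by
    apply le_antisymm
    · rintro _ ⟨u, rfl⟩
      exact ⟨⟨D u, hD u u.2, hDD u u.2⟩, rfl⟩
    · rintro _ ⟨z, rfl⟩
      obtain ⟨u, hu, huz⟩ := hex z z.2.1 z.2.2
      refine ⟨⟨u, hu⟩, ?_⟩
      show K.mkQ (D u) = K.mkQ z
      rw [← sub_eq_zero, ← map_sub]
      exact (Submodule.Quotient.mk_eq_zero K).2 huz
  have h1 : finrank ℂ (LinearMap.ker f) = finrank ℂ (U1 ⊓ K.comap D : Submodule ℂ V) := by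
    rw [← hkf, Submodule.finrank_map_subtype_eq]
  have h2 : finrank ℂ (LinearMap.ker g) = finrank ℂ (U0 ⊓ K : Submodule ℂ V) := by
    rw [← hkg, Submodule.finrank_map_subtype_eq]
  rw [hrange] at hf
  show finrank ℂ U1 + finrank ℂ (U0 ⊓ K : Submodule ℂ V)
      = finrank ℂ (U1 ⊓ K.comap D : Submodule ℂ V) + finrank ℂ Z0
  omega

end Pool.Agent.H569_J4b
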