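import Pool.Agent.H569_LCS.Surj
import Pool.Agent.H569_LCS.J1213
import Pool.Agent.H569_LCS.J1214
import Pool.Agent.H569_LCS.J1215
import Pool.Agent.H569_LCS.J1217
import Pool.Agent.H569_LCS.J1218
set_option autoImplicit false
set_option linter.unusedSimpArgs false
set_option linter.unusedVariables false
set_option linter.unusedSectionVars false
namespace Pool.Agent.H569_LCS
open Module

variable {ι : Type} [DecidableEq ι] [Fintype ι] (par : ι → Bool) (w : ι)

theorem word_pow (v : FreeMonoid ι) (h : cc w (dg v) = 0) : ∃ n : ℕ, wd v = (FreeAlgebra.ι ℂ w) ^ n := by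
  induction v using FreeMonoid.recOn with
  | one => exact ⟨0, by simp⟩
  | of_mul x v ih =>
    rw [dg_mul, dg_of, cc_add, cc_single] at h
    have hx : x = w := by
      by_contra hx
      rw [if_neg hx] at h; omega
    obtain ⟨n, hn⟩ := ih (by omega)
    exact ⟨n+1, by rw [map_mul, hn, wd_of, hx, pow_succ']⟩

theorem D_comm {A : Type} [Ring A] [Algebra ℂ A] (σ : A →ₐ[ℂ] A) (p q r : Bool) (a x z : A)
    (ha : hom σ r a) (hx : hom σ p x) (hz : hom σ q z) (h1 : x * z = z * x) (h2 : a * (x * z) = x * z * a) :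
    D σ r a (D σ p x z) = 0 := by
  have hxz := hom_mul σ hx hz
  cases p <;> cases q <;> cases r <;>
  · simp only [hom, cond_true, cond_false, Bool.xor_false, Bool.xor_true, Bool.not_true, Bool.not_false] at ha hx hz hxz
    simp only [D, tw, cond_true, cond_false, map_mul, map_sub, hx, hz, neg_mul, mul_neg, neg_neg, ← h1, sub_self, mul_zero,
      zero_mul, sub_neg_eq_add, map_add, mul_add, add_mul, h2, map_neg, map_zero]
    try abel

theorem pow_G (n : ℕ) : (FreeAlgebra.ι ℂ w) ^ n ∈ G (Finsupp.single w n) := by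
  induction n with
  | zero => simpa using one_mem_G
  | succ n ih =>
    rw [pow_succ]
    have := G_mul ih (ι_mem_G w)
    rwa [← Finsupp.single_add] at this

theorem LL_zero (k : ℕ) (hk : 2 ≤ k) (d : ι →₀ ℕ) (h : cc w d = 0) : LL (sig par) k ⊓ G d = ⊥ := by
  rw [eq_bot_iff]
  refine le_trans (inf_le_inf_right _ (LL_anti' (sig par) hk)) ?_
  apply LL_G_le
  intro u hu
  rw [Submodule.mem_bot]
  have hd : tdeg 2 u = dg (u 0) + dg (u 1) + dg (u 2) := by
    simp [tdeg, Finset.sum_range_succ]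
  rw [← hu, hd, cc_add, cc_add] at h
  obtain ⟨a, ha⟩ := word_pow w (u 0) (by omega)
  obtain ⟨b, hb⟩ := word_pow w (u 1) (by omega)
  obtain ⟨c, hc⟩ := word_pow w (u 2) (by omega)
  have e : mbr (sig par) 2 (fun i => wd (u i)) = sbr (sig par) (wd (u 2)) (sbr (sig par) (wd (u 1)) (wd (u 0))) := rfl
  rw [e, ha, hb, hc, sbr_of_hom _ (hom_G par (pow_G w c)), sbr_of_hom _ (hom_G par (pow_G w b))]
  refine D_comm (sig par) _ _ _ _ _ _ (hom_G par (pow_G w c)) (hom_G par (pow_G w b)) (hom_G par (pow_G w a)) ?_ ?_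
  · rw [← pow_add, ← pow_add, add_comm]
  · rw [← pow_add, ← pow_add, ← pow_add, add_comm]

/-- dimension of the graded pieces of `B_{k+1}` -/
noncomputable def fN (k : ℕ) (d : ι →₀ ℕ) : ℕ :=
  finrank ℂ (LL (sig par) k ⊓ G d : Submodule ℂ (FreeAlgebra ℂ ι)) -
    finrank ℂ (LL (sig par) (k+1) ⊓ G d : Submodule ℂ (FreeAlgebra ℂ ι))

theorem LL_inf_le (k : ℕ) (d : ι →₀ ℕ) : (LL (sig par) (k+1) ⊓ G d : Submodule ℂ (FreeAlgebra ℂ ι))
    ≤ LL (sig par) k ⊓ G d := inf_le_inf_right _ (LL_anti (sig par) k)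

theorem finrank_LL_le (k : ℕ) (d : ι →₀ ℕ) :
    finrank ℂ (LL (sig par) (k+1) ⊓ G d : Submodule ℂ (FreeAlgebra ℂ ι))
    ≤ finrank ℂ (LL (sig par) k ⊓ G d : Submodule ℂ (FreeAlgebra ℂ ι)) :=
  Submodule.finrank_mono (LL_inf_le par k d)

theorem fN_zero (k : ℕ) (hk : 2 ≤ k) (d : ι →₀ ℕ) (h : cc w d = 0) : fN par k d = 0 := by
  rw [fN, LL_zero par w k hk d h]; simp

theorem XX_LL (k : ℕ) : ∀ x ∈ LL (sig par) k, XX par w x ∈ LL (sig par) k :=
  LL_stable (sig par) (XX par w) id (even_sbr (sig par) (XX par w) (XX_mul par w) (XX_sig par w)) k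

theorem DD_LL (hw : par w = true) (k : ℕ) : ∀ x ∈ LL (sig par) k, DD par w x ∈ LL (sig par) k :=
  LL_stable (sig par) (DD par w) (sig par)
    (odd_sbr (sig par) (sig_sig par) (DD par w) (DD_mul par w) (DD_sig par w hw)) k

theorem YY_LL (hw : par w = true) (k : ℕ) : ∀ x ∈ LL (sig par) k, YY par w x ∈ LL (sig par) k :=
  LL_stable (sig par) (YY par w) (sig par)
    (odd_sbr (sig par) (sig_sig par) (YY par w) (YY_mul par w) (YY_sig par w hw)) k

theorem fN_mono (k : ℕ) (hk : 2 ≤ k) : ∃ N : ℕ, ∀ (d : ι →₀ ℕ), N ≤ d w →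
    fN par k (d + Finsupp.single w (pw par w)) ≤ fN par k d := by
  obtain ⟨N, hN⟩ := surj_free par w k (by omega)
  refine ⟨N, fun d hd => ?_⟩
  by_cases hc : cc w d = 0
  · have : cc w (d + Finsupp.single w (pw par w)) = 0 := by rw [cc_add, cc_single, hc]; simp
    rw [fN_zero par w k hk _ this]; exact Nat.zero_le _
  · have key := Pool.Agent.H569_J4a.TARGET (XX par w)
      (LL (sig par) k ⊓ G d) (LL (sig par) (k+1) ⊓ G d)
      (LL (sig par) k ⊓ G (d + Finsupp.single w (pw par w)))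
      (LL (sig par) (k+1) ⊓ G (d + Finsupp.single w (pw par w)))
      (LL_inf_le par k d) (LL_inf_le par k _)
      (fun u hu => ⟨XX_LL par w (k+1) u hu.1, XX_G par w hu.2⟩)
      (fun t ht => by
        obtain ⟨v, hv, hv2⟩ := hN d hd hc t ht
        exact ⟨v, hv, hv2, Submodule.sub_mem _ ht.2 (XX_G par w hv.2)⟩)
    have h1 := finrank_LL_le par k d
    have h2 := finrank_LL_le par k (d + Finsupp.single w (pw par w))
    rw [fN, fN]
    omega

/-- dimension of the kernel of the odd derivative -/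
noncomputable def gN (k : ℕ) (d : ι →₀ ℕ) : ℕ :=
  finrank ℂ ((LL (sig par) k ⊓ G d) ⊓ (LL (sig par) (k+1)).comap (DD par w) : Submodule ℂ (FreeAlgebra ℂ ι)) -
    finrank ℂ (LL (sig par) (k+1) ⊓ G d : Submodule ℂ (FreeAlgebra ℂ ι))

theorem fN_gN (hw : par w = true) (k : ℕ) (hk : 2 ≤ k) (d : ι →₀ ℕ) :
    fN par k (d + Finsupp.single w 1) = gN par w k (d + Finsupp.single w 1) + gN par w k d := by
  by_cases hc : cc w d = 0
  · have h1 : cc w (d + Finsupp.single w 1) = 0 := by rw [cc_add, cc_single, hc]; simp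
    rw [fN_zero par w k hk _ h1, gN, gN, LL_zero par w k hk _ h1, LL_zero par w k hk _ hc, bot_inf_eq, finrank_bot,
      Nat.zero_sub, Nat.zero_sub]
  · have hcC : (cc w d : ℂ) ≠ 0 := by exact_mod_cast hc
    have key := Pool.Agent.H569_J4b.TARGET (DD par w) (LL (sig par) (k+1))
      (LL (sig par) k ⊓ G d) (LL (sig par) k ⊓ G (d + Finsupp.single w 1))
      (fun u hu => ⟨DD_LL par w hw k u hu.1, DD_G par w hu.2⟩)
      (fun u _ => by rw [DD_DD par w hw]; exact Submodule.zero_mem _)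
      (fun z hz hDz => by
        refine ⟨(cc w d : ℂ)⁻¹ • YY par w z, ⟨Submodule.smul_mem _ _ (YY_LL par w hw k z hz.1),
          Submodule.smul_mem _ _ (YY_G par w hz.2)⟩, ?_⟩
        have h1 := DD_YY par w hw z
        rw [EE_G w hz.2] at h1
        have h2 : DD par w ((cc w d : ℂ)⁻¹ • YY par w z) - z = - ((cc w d : ℂ)⁻¹ • YY par w (DD par w z)) := by
          rw [map_smul, eq_sub_of_add_eq h1, smul_sub, smul_smul, inv_mul_cancel₀ hcC, one_smul]; abel
        rw [h2]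
        exact Submodule.neg_mem _ (Submodule.smul_mem _ _ (YY_LL par w hw (k+1) _ hDz)))
      (DD_LL par w hw (k+1))
    have e0 : ∀ d : ι →₀ ℕ, ((LL (sig par) k ⊓ G d) ⊓ LL (sig par) (k+1) : Submodule ℂ (FreeAlgebra ℂ ι))
        = LL (sig par) (k+1) ⊓ G d := by
      intro d
      rw [inf_right_comm, inf_eq_right.2 (LL_anti (sig par) k)]
    rw [e0] at key
    have h3 : ∀ d : ι →₀ ℕ, finrank ℂ (LL (sig par) (k+1) ⊓ G d : Submodule ℂ (FreeAlgebra ℂ ι)) ≤
        finrank ℂ ((LL (sig par) k ⊓ G d) ⊓ (LL (sig par) (k+1)).comap (DD par w) : Submodule ℂ (FreeAlgebra ℂ ι)) := by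
      intro d
      apply Submodule.finrank_mono
      intro x hx
      exact ⟨⟨LL_anti (sig par) k hx.1, hx.2⟩, DD_LL par w hw (k+1) x hx.1⟩
    have h4 := h3 d
    have h5 := h3 (d + Finsupp.single w 1)
    have h6 := finrank_LL_le par k (d + Finsupp.single w 1)
    rw [fN, gN, gN]
    omega

theorem fN_eventually (k : ℕ) (hk : 2 ≤ k) : ∃ N : ℕ, ∀ (i : ι) (d : ι →₀ ℕ), N ≤ d i →
    fN par k (d + Finsupp.single i 1) = fN par k d := by
  choose N hN using fun i => fN_mono par i k hk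
  obtain ⟨M, hM⟩ := Pool.Agent.H569_J1.TARGET (pw par)
    (fun i => by unfold pw; cases par i <;> simp) (fN par k) (Finset.univ.sup N)
    (fun i d hd => hN i d (le_trans (Finset.le_sup (Finset.mem_univ i)) hd))
  refine ⟨M, fun i d hd => ?_⟩
  cases h : par i
  · have := hM i d hd
    rwa [show pw par i = 1 by simp [pw, h]] at this
  · refine Pool.Agent.H569_J2a.TARGET i (fN par k) (gN par i k) M (fun d hd => ?_) (fN_gN par i h k hk) d hd
    have := hM i d hd
    rwa [show pw par i = 2 by simp [pw, h]] at this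

theorem rational_free (k : ℕ) (hk : 2 ≤ k) (h : MvPowerSeries ι ℤ)
    (hh : ∀ d : ι →₀ ℕ, MvPowerSeries.coeff d h = ((fN par k d : ℕ) : ℤ)) :
    ∃ p : MvPolynomial ι ℤ, h * ∏ s : ι, (1 - MvPowerSeries.X s) = (p : MvPowerSeries ι ℤ) := by
  obtain ⟨N, hN⟩ := fN_eventually par k hk
  refine Pool.Agent.H569_J2b.TARGET h N (fun i d hd => ?_)
  rw [hh, hh, hN i d hd]

theorem neg_one_pow_sg (n : ℕ) : (-1 : ℂ) ^ n = sg (Nat.bodd n) := by
  induction n with
  | zero => simp [sg]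
  | succ n ih => rw [pow_succ, ih, Nat.bodd_succ]; cases Nat.bodd n <;> simp [sg]

/-- the supercommutator of a word with a homogeneous element -/
theorem sbr_wd (u : FreeMonoid ι) (d : ι →₀ ℕ) (b : FreeAlgebra ℂ ι) (hb : b ∈ G d) :
    sbr (sig par) (wd u) b = wd u * b - ((-1 : ℂ) ^ (np par (dg u) * np par d)) • (b * wd u) := by
  rw [sbr_of_hom _ (hom_G par (wd_mem_G u)), D]
  congr 1
  have h1 := hom_G par hb
  rw [hom_iff] at h1
  rw [neg_one_pow_sg, Nat.bodd_mul, tw]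
  change (bif pp par (dg u) then (sig par) b else b) * wd u = sg (pp par (dg u) && pp par d) • (b * wd u)
  cases pp par (dg u)
  · simp [sg]
  · simp only [cond_true, Bool.true_and, h1, smul_mul_assoc]

/-- the problem's recursion gives `LL` -/
theorem LL_succ_eq (k : ℕ) : LL (sig par) (k+1) = Submodule.span ℂ
    {x : FreeAlgebra ℂ ι | ∃ (u : FreeMonoid ι) (d : ι →₀ ℕ) (b : FreeAlgebra ℂ ι), b ∈ LL (sig par) k ⊓ G d ∧
      x = wd u * b - ((-1 : ℂ) ^ (np par (dg u) * np par d)) • (b * wd u)} := by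
  apply le_antisymm
  · refine Submodule.map₂_le.2 (fun a _ b hb => ?_)
    have h1 : ∀ v : FreeMonoid ι, sbr (sig par) (wd v) b ∈ Submodule.span ℂ
        {x : FreeAlgebra ℂ ι | ∃ (u : FreeMonoid ι) (d : ι →₀ ℕ) (b : FreeAlgebra ℂ ι), b ∈ LL (sig par) k ⊓ G d ∧
          x = wd u * b - ((-1 : ℂ) ^ (np par (dg u) * np par d)) • (b * wd u)} := by
      intro v
      have : b ∈ (Submodule.span ℂ
        {x : FreeAlgebra ℂ ι | ∃ (u : FreeMonoid ι) (d : ι →₀ ℕ) (b : FreeAlgebra ℂ ι), b ∈ LL (sig par) k ⊓ G d ∧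
          x = wd u * b - ((-1 : ℂ) ^ (np par (dg u) * np par d)) • (b * wd u)}).comap (sbr (sig par) (wd v)) := by
        apply mem_of_proj
        intro d
        refine Submodule.subset_span ⟨v, d, proj d b, ⟨Gr_LL par k d b hb, proj_mem d b⟩, ?_⟩
        exact sbr_wd par v d _ (proj_mem d b)
      exact this
    have h2 : a ∈ (Submodule.span ℂ
        {x : FreeAlgebra ℂ ι | ∃ (u : FreeMonoid ι) (d : ι →₀ ℕ) (b : FreeAlgebra ℂ ι), b ∈ LL (sig par) k ⊓ G d ∧
          x = wd u * b - ((-1 : ℂ) ^ (np par (dg u) * np par d)) • (b * wd u)}).comap ((sbr (sig par)).flip b) :=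
      top_le_of_wd h1 a
    exact h2
  · rw [Submodule.span_le]
    rintro _ ⟨u, d, b, hb, rfl⟩
    rw [← sbr_wd par u d b hb.2]
    exact sbr_mem _ _ hb.1

end Pool.Agent.H569_LCS
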