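import Pool.Agent.H569_LCS.Phi
set_option autoImplicit false
set_option linter.unusedSimpArgs false
set_option linter.unusedVariables false
set_option linter.unusedSectionVars false
namespace Pool.Agent.H569_LCS

variable {ι : Type} [DecidableEq ι]

/-- words -/
noncomputable def wd : FreeMonoid ι →* FreeAlgebra ℂ ι := FreeMonoid.lift (fun x => FreeAlgebra.ι ℂ x)

theorem wd_of (x : ι) : wd (FreeMonoid.of x) = FreeAlgebra.ι ℂ x := by simp [wd]

theorem basis_apply (w : FreeMonoid ι) : FreeAlgebra.basisFreeMonoid ℂ ι w = wd w := by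
  simp only [FreeAlgebra.basisFreeMonoid, Module.Basis.map_apply, Finsupp.coe_basisSingleOne]
  simp [wd, FreeAlgebra.equivMonoidAlgebraFreeMonoid]

theorem span_wd : Submodule.span ℂ (Set.range (wd : FreeMonoid ι → FreeAlgebra ℂ ι)) = ⊤ := by
  have := (FreeAlgebra.basisFreeMonoid ℂ ι).span_eq
  rw [← this]
  congr 1
  ext x
  simp only [Set.mem_range, basis_apply]

theorem top_le_of_wd {W : Submodule ℂ (FreeAlgebra ℂ ι)} (h : ∀ w, wd w ∈ W) : ∀ x, x ∈ W := by
  intro x
  have : (⊤ : Submodule ℂ (FreeAlgebra ℂ ι)) ≤ W := by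
    rw [← span_wd, Submodule.span_le]
    rintro _ ⟨w, rfl⟩
    exact h w
  exact this trivial

theorem ext_wd {V : Type} [AddCommGroup V] [Module ℂ V] {f g : FreeAlgebra ℂ ι →ₗ[ℂ] V}
    (h : ∀ w, f (wd w) = g (wd w)) : f = g := by
  apply (FreeAlgebra.basisFreeMonoid ℂ ι).ext
  intro w
  rw [basis_apply]; exact h w

/-- multidegree of a word -/
noncomputable def dg (w : FreeMonoid ι) : ι →₀ ℕ :=
  Multiset.toFinsupp (↑(FreeMonoid.toList w) : Multiset ι)

theorem dg_one : dg (1 : FreeMonoid ι) = 0 := by simp [dg]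

theorem dg_mul (v w : FreeMonoid ι) : dg (v * w) = dg v + dg w := by
  simp only [dg, FreeMonoid.toList_mul, ← Multiset.coe_add, map_add]

theorem dg_of (x : ι) : dg (FreeMonoid.of x) = Finsupp.single x 1 := by
  simp [dg, FreeMonoid.toList_of]

/-- homogeneous component -/
noncomputable def G (d : ι →₀ ℕ) : Submodule ℂ (FreeAlgebra ℂ ι) :=
  Submodule.span ℂ ((wd : FreeMonoid ι → FreeAlgebra ℂ ι) '' {w | dg w = d})

theorem wd_mem_G (w : FreeMonoid ι) : wd w ∈ G (dg w) := Submodule.subset_span ⟨w, rfl, rfl⟩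

theorem G_le {d : ι →₀ ℕ} {W : Submodule ℂ (FreeAlgebra ℂ ι)} (h : ∀ w, dg w = d → wd w ∈ W) :
    G d ≤ W := by
  rw [G, Submodule.span_le]
  rintro _ ⟨w, hw, rfl⟩
  exact h w hw

/-- diagonal operators -/
noncomputable def diag (φ : (ι →₀ ℕ) → ℂ) : FreeAlgebra ℂ ι →ₗ[ℂ] FreeAlgebra ℂ ι :=
  (FreeAlgebra.basisFreeMonoid ℂ ι).constr ℂ (fun w => φ (dg w) • wd w)

theorem diag_wd (φ : (ι →₀ ℕ) → ℂ) (w : FreeMonoid ι) : diag φ (wd w) = φ (dg w) • wd w := by
  have := (FreeAlgebra.basisFreeMonoid ℂ ι).constr_basis ℂ (fun w => φ (dg w) • wd w) w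
  rwa [basis_apply] at this

theorem diag_G (φ : (ι →₀ ℕ) → ℂ) {d : ι →₀ ℕ} {x : FreeAlgebra ℂ ι} (hx : x ∈ G d) :
    diag φ x = φ d • x := by
  have : G d ≤ LinearMap.ker (diag φ - φ d • LinearMap.id) := by
    refine G_le (fun w hw => ?_)
    simp [diag_wd, hw]
  have := this hx
  simpa [sub_eq_zero] using this

/-- projection to the component of degree `d` -/
noncomputable def proj (d : ι →₀ ℕ) : FreeAlgebra ℂ ι →ₗ[ℂ] FreeAlgebra ℂ ι :=
  diag (fun e => if e = d then 1 else 0)

theorem proj_self {d : ι →₀ ℕ} {x : FreeAlgebra ℂ ι} (hx : x ∈ G d) : proj d x = x := by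
  rw [proj, diag_G _ hx]; simp

theorem proj_ne {d e : ι →₀ ℕ} (h : e ≠ d) {x : FreeAlgebra ℂ ι} (hx : x ∈ G e) : proj d x = 0 := by
  rw [proj, diag_G _ hx]; simp [h]

theorem proj_mem (d : ι →₀ ℕ) (x : FreeAlgebra ℂ ι) : proj d x ∈ G d := by
  have : x ∈ (G d).comap (proj d) := by
    apply top_le_of_wd
    intro w
    rw [Submodule.mem_comap, proj, diag_wd]
    by_cases h : dg w = d
    · rw [if_pos h, one_smul, ← h]; exact wd_mem_G w
    · rw [if_neg h, zero_smul]; exact Submodule.zero_mem _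
  exact this

theorem G_mul {d e : ι →₀ ℕ} {x y : FreeAlgebra ℂ ι} (hx : x ∈ G d) (hy : y ∈ G e) :
    x * y ∈ G (d + e) := by
  have h1 : ∀ w : FreeMonoid ι, dg w = d → G e ≤ (G (d + e)).comap (LinearMap.mulLeft ℂ (wd w)) := by
    intro w hw
    refine G_le (fun v hv => ?_)
    rw [Submodule.mem_comap, LinearMap.mulLeft_apply, ← map_mul, ← hw, ← hv, ← dg_mul]
    exact wd_mem_G _
  have h2 : G d ≤ (G (d + e)).comap (LinearMap.mulRight ℂ y) := by
    refine G_le (fun w hw => ?_)
    exact h1 w hw hy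
  exact h2 hx

/-- graded submodules -/
def Gr (U : Submodule ℂ (FreeAlgebra ℂ ι)) : Prop := ∀ d, ∀ x ∈ U, proj d x ∈ U

theorem exists_decomp (x : FreeAlgebra ℂ ι) : x ∈ Submodule.span ℂ (Set.range (fun d => proj d x)) := by
  -- finite sum of the projections
  have key : ∃ S : Finset (ι →₀ ℕ), ∀ S' : Finset (ι →₀ ℕ), S ⊆ S' → x = ∑ d ∈ S', proj d x := by
    have : x ∈ Submodule.span ℂ (Set.range (wd : FreeMonoid ι → FreeAlgebra ℂ ι)) := by
      rw [span_wd]; trivial
    induction this using Submodule.span_induction with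
    | mem x hx =>
      obtain ⟨w, rfl⟩ := hx
      refine ⟨{dg w}, fun S' hS => ?_⟩
      rw [Finset.sum_eq_single (dg w)]
      · rw [proj_self (wd_mem_G w)]
      · intro b _ hb
        exact proj_ne (Ne.symm hb) (wd_mem_G w)
      · intro h; exact absurd (hS (Finset.mem_singleton_self _)) h
    | zero => exact ⟨∅, fun S' _ => by simp⟩
    | add x y _ _ hx hy =>
      obtain ⟨S, hS⟩ := hx
      obtain ⟨T, hT⟩ := hy
      refine ⟨S ∪ T, fun S' h => ?_⟩
      simp only [map_add, Finset.sum_add_distrib]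
      rw [← hS S' (Finset.union_subset_left h), ← hT S' (Finset.union_subset_right h)]
    | smul a x _ hx =>
      obtain ⟨S, hS⟩ := hx
      refine ⟨S, fun S' h => ?_⟩
      simp only [map_smul, ← Finset.smul_sum]
      rw [← hS S' h]
  obtain ⟨S, hS⟩ := key
  have := hS S (Finset.Subset.refl _)
  rw [this]
  refine Submodule.sum_mem _ (fun d _ => ?_)
  rw [← this]
  exact Submodule.subset_span ⟨d, rfl⟩

theorem mem_of_proj {U : Submodule ℂ (FreeAlgebra ℂ ι)} {x : FreeAlgebra ℂ ι} (h : ∀ d, proj d x ∈ U) :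
    x ∈ U := by
  have : Submodule.span ℂ (Set.range (fun d => proj d x)) ≤ U := by
    rw [Submodule.span_le]; rintro _ ⟨d, rfl⟩; exact h d
  exact this (exists_decomp x)

/-- a submodule spanned by homogeneous elements is graded -/
theorem Gr_span {S : Set (FreeAlgebra ℂ ι)} (h : ∀ x ∈ S, ∃ d, x ∈ G d) : Gr (Submodule.span ℂ S) := by
  intro d x hx
  have : Submodule.span ℂ S ≤ (Submodule.span ℂ S).comap (proj d) := by
    rw [Submodule.span_le]
    intro y hy
    obtain ⟨e, he⟩ := h y hy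
    show proj d y ∈ Submodule.span ℂ S
    by_cases hde : e = d
    · subst hde; rw [proj_self he]; exact Submodule.subset_span hy
    · rw [proj_ne hde he]; exact Submodule.zero_mem _
  exact this hx

instance G_fin [Fintype ι] (d : ι →₀ ℕ) : FiniteDimensional ℂ (G d) := by
  have : {w : FreeMonoid ι | dg w = d}.Finite := by
    have h0 : {l : List ι | (↑l : Multiset ι) = Finsupp.toMultiset d}.Finite := by
      refine Set.Finite.subset ((Finsupp.toMultiset d).lists.toFinset).finite_toSet ?_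
      intro l hl
      simp only [Finset.mem_coe, Multiset.mem_toFinset, Multiset.mem_lists_iff]
      exact hl.symm
    refine Set.Finite.of_finite_image (f := FreeMonoid.toList) (Set.Finite.subset h0 ?_) FreeMonoid.toList.injective.injOn
    rintro _ ⟨w, hw, rfl⟩
    simp only [Set.mem_ofPred_eq, dg] at hw ⊢
    rw [← hw]
    exact (Multiset.toFinsupp_toMultiset _).symm
  exact FiniteDimensional.span_of_finite ℂ (this.image _)

end Pool.Agent.H569_LCS
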