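import Mathlib
set_option autoImplicit false
set_option linter.unusedSimpArgs false
namespace Pool.Agent.H569_LCS

variable {A : Type} [Ring A] [Algebra ℂ A]

/-- the twist `σ^p` -/
def tw (σ : A →ₐ[ℂ] A) (p : Bool) (b : A) : A := bif p then σ b else b

/-- the sign `(-1)^(p q)` -/
def ep (p q : Bool) : ℂ := bif (p && q) then -1 else 1

/-- supercommutator with an element `a` of parity `p` -/
def D (σ : A →ₐ[ℂ] A) (p : Bool) (a b : A) : A := a * b - tw σ p b * a

/-- super Jordan product with an element `a` of parity `p` -/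
noncomputable def circ (σ : A →ₐ[ℂ] A) (p : Bool) (a b : A) : A := (1/2 : ℂ) • (a * b + tw σ p b * a)

/-- `P_s f = (s f + f s)/2` -/
noncomputable def PP (s : A) : A →ₗ[ℂ] A :=
  (1/2 : ℂ) • (LinearMap.mulLeft ℂ s + LinearMap.mulRight ℂ s)

theorem PP_apply (s f : A) : PP s f = (1/2 : ℂ) • (s * f + f * s) := rfl

/-- homogeneous of parity `p` -/
def hom (σ : A →ₐ[ℂ] A) (p : Bool) (a : A) : Prop := σ a = bif p then -a else a

noncomputable def fog (p q : Bool) (f g : A) : A := (1/2 : ℂ) • (f * g + ep p q • (g * f))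

theorem idA (σ : A →ₐ[ℂ] A) (hσ : ∀ a, σ (σ a) = a) (s : A) (hs : σ s = s) (p q : Bool) (f g β : A)
    (hf : hom σ p f) (hg : hom σ q g) :
    D σ p (PP s (PP s f)) (D σ q g β) - (2:ℂ) • D σ p (PP s f) (D σ q (PP s g) β)
      + D σ p f (D σ q (PP s (PP s g)) β)
    = - (2:ℂ) • D σ false s (circ σ (xor p q) (fog p q f g) (D σ false s β))
      + (1/4 : ℂ) • (D σ false s (D σ false s (D σ p f (D σ q g β)))
        + D σ p f (D σ q g (D σ false s (D σ false s β)))
        + (2 * ep p q) • D σ false s (D σ q g (D σ p f (D σ false s β)))) := by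
  cases p <;> cases q <;>
  · simp only [hom, cond_true, cond_false] at hf hg
    simp only [D, circ, PP_apply, fog, tw, ep, cond_true, cond_false, Bool.xor_false, Bool.xor_true, Bool.false_xor,
      Bool.not_false, Bool.not_true, Bool.and_true, Bool.and_false, Bool.true_and, Bool.false_and, Bool.true_xor,
      map_mul, map_sub, map_add, map_smul, hσ, hs, hf, hg, map_neg,
      mul_add, add_mul, mul_sub, sub_mul, smul_mul_assoc, mul_smul_comm, mul_neg, neg_mul, mul_assoc, smul_add, smul_sub, smul_neg]
    module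

theorem idB (σ : A →ₐ[ℂ] A) (hσ : ∀ a, σ (σ a) = a) (s : A) (hs : σ s = s) (p : Bool) (h β : A)
    (hh : hom σ p h) :
    (2:ℂ) • D σ false s (circ σ p h (D σ false s β))
    = D σ false s (D σ p (PP s h) β) + D σ p (PP s h) (D σ false s β)
      - (1/2 : ℂ) • (D σ false (s * s) (D σ p h β) + D σ p h (D σ false (s * s) β)) := by
  cases p <;>
  · simp only [hom, cond_true, cond_false] at hh
    simp only [D, circ, PP_apply, fog, tw, ep, cond_true, cond_false,
      map_mul, map_sub, map_add, map_smul, hσ, hs, hh, map_neg,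
      mul_add, add_mul, mul_sub, sub_mul, smul_mul_assoc, mul_smul_comm, mul_neg, neg_mul, mul_assoc, smul_add, smul_sub, smul_neg]
    module

theorem idC (σ : A →ₐ[ℂ] A) (hσ : ∀ a, σ (σ a) = a) (s : A) (hs : σ s = s) (p q : Bool) (f g : A)
    (hf : hom σ p f) (hg : hom σ q g) :
    fog p q (PP s f) g - fog p q f (PP s g) = (1/4 : ℂ) • D σ false s (D σ p f g) := by
  cases p <;> cases q <;>
  · simp only [hom, cond_true, cond_false] at hf hg
    simp only [D, circ, PP_apply, fog, tw, ep, cond_true, cond_false, Bool.xor_false, Bool.xor_true, Bool.false_xor,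
      Bool.not_false, Bool.not_true, Bool.and_true, Bool.and_false, Bool.true_and, Bool.false_and, Bool.true_xor,
      map_mul, map_sub, map_add, map_smul, hσ, hs, hf, hg, map_neg,
      mul_add, add_mul, mul_sub, sub_mul, smul_mul_assoc, mul_smul_comm, mul_neg, neg_mul, mul_assoc, smul_add, smul_sub, smul_neg]
    module

/-- cyclic identity with an even element: `[Pf, g] - [f, Pg] = [s, f∘g]` -/
theorem idCyc (σ : A →ₐ[ℂ] A) (hσ : ∀ a, σ (σ a) = a) (s : A) (hs : σ s = s) (p q : Bool) (f g : A)
    (hf : hom σ p f) (hg : hom σ q g) :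
    D σ p (PP s f) g - D σ p f (PP s g) = D σ false s (fog p q f g) := by
  cases p <;> cases q <;>
  · simp only [hom, cond_true, cond_false] at hf hg
    simp only [D, circ, PP_apply, fog, tw, ep, cond_true, cond_false, Bool.xor_false, Bool.xor_true, Bool.false_xor,
      Bool.not_false, Bool.not_true, Bool.and_true, Bool.and_false, Bool.true_and, Bool.false_and, Bool.true_xor,
      map_mul, map_sub, map_add, map_smul, hσ, hs, hf, hg, map_neg,
      mul_add, add_mul, mul_sub, sub_mul, smul_mul_assoc, mul_smul_comm, mul_neg, neg_mul, mul_assoc, smul_add, smul_sub, smul_neg]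
    module

/-- the derivation `[s, ·]` commutes with `P_s` -/
theorem D_PP (σ : A →ₐ[ℂ] A) (s f : A) :
    D σ false s (PP s f) = PP s (D σ false s f) := by
  simp only [D, PP_apply, tw, cond_false,
      mul_add, add_mul, mul_sub, sub_mul, smul_mul_assoc, mul_smul_comm, mul_neg, neg_mul, mul_assoc, smul_add, smul_sub, smul_neg]
  module

/-- super Jacobi -/
theorem jacobi (σ : A →ₐ[ℂ] A) (hσ : ∀ a, σ (σ a) = a) (p q : Bool) (f g β : A)
    (hf : hom σ p f) (hg : hom σ q g) :
    D σ (xor p q) (D σ p f g) β = D σ p f (D σ q g β) - ep p q • D σ q g (D σ p f β) := by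
  cases p <;> cases q <;>
  · simp only [hom, cond_true, cond_false] at hf hg
    simp only [D, circ, PP_apply, fog, tw, ep, cond_true, cond_false, Bool.xor_false, Bool.xor_true, Bool.false_xor,
      Bool.not_false, Bool.not_true, Bool.and_true, Bool.and_false, Bool.true_and, Bool.false_and, Bool.true_xor,
      map_mul, map_sub, map_add, map_smul, hσ, hf, hg, map_neg,
      mul_add, add_mul, mul_sub, sub_mul, smul_mul_assoc, mul_smul_comm, mul_neg, neg_mul, mul_assoc, smul_add, smul_sub, smul_neg]
    module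

/-- antisymmetry -/
theorem antisym (σ : A →ₐ[ℂ] A) (p q : Bool) (f g : A)
    (hf : hom σ p f) (hg : hom σ q g) :
    D σ p f g = - (ep p q • D σ q g f) := by
  cases p <;> cases q <;>
  · simp only [hom, cond_true, cond_false] at hf hg
    simp only [D, tw, ep, cond_true, cond_false,
      Bool.and_true, Bool.and_false, Bool.true_and, Bool.false_and,
      hf, hg, mul_neg, neg_mul]
    module

/-- `a [b, g] = ± ([b, a g] - [b, a] g)` -/
theorem mul_D (σ : A →ₐ[ℂ] A) (p q : Bool) (a b g : A)
    (ha : hom σ p a) (hb : hom σ q b) :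
    a * D σ q b g = ep p q • (D σ q b (a * g) - D σ q b a * g) := by
  cases p <;> cases q <;>
  · simp only [hom, cond_true, cond_false] at ha hb
    simp only [D, tw, ep, cond_true, cond_false, 
      Bool.and_true, Bool.and_false, Bool.true_and, Bool.false_and,
      map_mul, ha, hb, mul_neg, neg_mul, mul_sub, sub_mul, mul_assoc]
    module

/-- `[u g, e] = [u, g e] + ± [g, e u]` -/
theorem D_mul_left (σ : A →ₐ[ℂ] A) (hσ : ∀ a, σ (σ a) = a) (p q r : Bool) (u g e : A)
    (hu : hom σ p u) (hg : hom σ q g) (he : hom σ r e) :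
    D σ (xor p q) (u * g) e = D σ p u (g * e) + ep p (xor q r) • D σ q g (e * u) := by
  cases p <;> cases q <;> cases r <;>
  · simp only [hom, cond_true, cond_false] at hu hg he
    simp only [D, tw, ep, cond_true, cond_false, Bool.xor_false, Bool.xor_true, Bool.false_xor,
      Bool.not_false, Bool.not_true,
      Bool.and_true, Bool.and_false, Bool.true_and, Bool.false_and, Bool.true_xor,
      map_mul, hu, hg, he, mul_neg, neg_mul, mul_sub, sub_mul, mul_assoc, neg_neg]
    module

end Pool.Agent.H569_LCS
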