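import Mathlib
set_option autoImplicit false
namespace Pool.Agent.H569_J3

theorem TARGET_sum {S : Type} [CommRing S] (I : Ideal S) (N : ℕ) (f : ℕ → S) (n : ℕ)
    (h : ∀ i < n, f i ^ N ∈ I) : (∑ i ∈ Finset.range n, f i) ^ (n * N + 1) ∈ I := by
  induction n with
  | zero => simp
  | succ n ih =>
    rw [Finset.sum_range_succ]
    refine Ideal.add_pow_mem_of_pow_mem_of_le (m := n * N + 1) (n := N) I
      (ih fun i hi => h i (by omega)) (h n (by omega)) ?_
    rw [add_mul, one_mul]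
    omega

theorem TARGET_smul {S : Type} [CommRing S] [Algebra ℂ S] (I : Ideal S) (c : ℂ) (y : S) (N : ℕ)
    (h : y ^ N ∈ I) : (c • y) ^ N ∈ I := by
  rw [smul_pow, Algebra.smul_def]
  exact I.mul_mem_left _ h

/-- uniform nilpotency -/
theorem TARGET (k : ℕ) : ∃ M : ℕ, ∀ (S : Type) [CommRing S] [Algebra ℂ S] (p x : ℕ → S) (c : ℕ → ℂ)
    (I : Ideal S),
    (∀ i < k, (p (i + 1) - p i) ^ 3 ∈ I) →
    (∀ i ≤ k, (x i - c i • p i) ^ 2 ∈ I) →
    (∑ i ∈ Finset.range (k + 1), x i ∈ I) →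
    (∑ i ∈ Finset.range (k + 1), c i ≠ 0) →
    ∀ i ≤ k, p i ^ M ∈ I := by
  refine ⟨(3 * k + 1) + (((k + 1) * (3 * k + 1) + 1) + ((k + 1) * 2 + 1)), ?_⟩
  intro S _ _ p x c I h1 h2 h3 h4
  have hp : ∀ i ≤ k, (p i - p 0) ^ (3 * i + 1) ∈ I := by
    intro i
    induction i with
    | zero => intro _; simp
    | succ i ih =>
      intro hi
      have e : p (i + 1) - p 0 = (p (i + 1) - p i) + (p i - p 0) := by ring
      rw [e]
      refine Ideal.add_pow_mem_of_pow_mem_of_le (m := 3) (n := 3 * i + 1) I (h1 i (by omega))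
        (ih (by omega)) ?_
      omega
  have hp' : ∀ i ≤ k, (p i - p 0) ^ (3 * k + 1) ∈ I := fun i hi => by
    have e : 3 * k + 1 = (3 * k + 1 - (3 * i + 1)) + (3 * i + 1) := by omega
    rw [e, pow_add]
    exact I.mul_mem_left _ (hp i hi)
  have hA : (∑ i ∈ Finset.range (k + 1), c i • (p 0 - p i)) ^ ((k + 1) * (3 * k + 1) + 1) ∈ I := by
    refine TARGET_sum I (3 * k + 1) (fun i => c i • (p 0 - p i)) (k + 1) fun i hi => ?_
    refine TARGET_smul I _ _ _ ?_
    have e : p 0 - p i = -(p i - p 0) := by ring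
    rw [e, neg_pow]
    exact I.mul_mem_left _ (hp' i (by omega))
  have hB : (∑ i ∈ Finset.range (k + 1), (c i • p i - x i)) ^ ((k + 1) * 2 + 1) ∈ I := by
    refine TARGET_sum I 2 (fun i => c i • p i - x i) (k + 1) fun i hi => ?_
    have e : (c i • p i - x i) ^ 2 = (x i - c i • p i) ^ 2 := by ring
    rw [e]
    exact h2 i (by omega)
  have hAB := Ideal.add_pow_mem_of_pow_mem_of_le (k := ((k + 1) * (3 * k + 1) + 1) +
    ((k + 1) * 2 + 1) ) I hA hB (by omega)
  have hX : (∑ i ∈ Finset.range (k + 1), x i) ^ 1 ∈ I := by rwa [pow_one]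
  have hABX := Ideal.add_pow_mem_of_pow_mem_of_le (k := ((k + 1) * (3 * k + 1) + 1) +
    ((k + 1) * 2 + 1)) I hAB hX (by omega)
  have e : (∑ i ∈ Finset.range (k + 1), c i • (p 0 - p i)) +
      (∑ i ∈ Finset.range (k + 1), (c i • p i - x i)) + (∑ i ∈ Finset.range (k + 1), x i) =
      (∑ i ∈ Finset.range (k + 1), c i) • p 0 := by
    rw [← Finset.sum_add_distrib, ← Finset.sum_add_distrib, Finset.sum_smul]
    refine Finset.sum_congr rfl fun i _ => ?_
    rw [smul_sub]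
    ring
  rw [e] at hABX
  have hp0 := TARGET_smul I (∑ i ∈ Finset.range (k + 1), c i)⁻¹ _ _ hABX
  rw [smul_smul, inv_mul_cancel₀ h4, one_smul] at hp0
  intro i hi
  have e2 : p i = (p i - p 0) + p 0 := by ring
  rw [e2]
  exact Ideal.add_pow_mem_of_pow_mem_of_le I (hp' i hi) hp0 (by omega)

end Pool.Agent.H569_J3
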