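import Pool.Agent.H569_LCS.Basic
set_option autoImplicit false
set_option linter.unusedSimpArgs false
set_option linter.unusedVariables false
set_option linter.unusedSectionVars false
namespace Pool.Agent.H569_LCS

variable {A : Type} [Ring A] [Algebra ℂ A] (σ : A →ₐ[ℂ] A)

theorem circ_sub (p : Bool) (a b c : A) : circ σ p a c - circ σ p b c = circ σ p (a - b) c := by
  simp only [circ, sub_mul, mul_sub]; module

theorem circ_smul (p : Bool) (t : ℂ) (a c : A) : circ σ p (t • a) c = t • circ σ p a c := by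
  simp only [circ, smul_mul_assoc, mul_smul_comm]; module

theorem D_sub_right (p : Bool) (a b c : A) : D σ p a (b - c) = D σ p a b - D σ p a c := by
  cases p <;> simp only [D, tw, cond_true, cond_false, map_sub, sub_mul, mul_sub] <;> abel

theorem D_smul_right (p : Bool) (t : ℂ) (a b : A) : D σ p a (t • b) = t • D σ p a b := by
  cases p <;> simp only [D, tw, cond_true, cond_false, map_smul, smul_mul_assoc, mul_smul_comm] <;> module

/-- locality, inner slots -/
theorem loc3 (hσ : ∀ a, σ (σ a) = a) (s : A) (hs : σ s = s) (p q : Bool) (f g β : A)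
    (hf : hom σ p f) (hg : hom σ q g) (k : ℕ) (hβ : β ∈ LL σ k) :
    D σ p (PP s (PP s (PP s f))) (D σ q g β) - (3:ℂ) • D σ p (PP s (PP s f)) (D σ q (PP s g) β)
      + (3:ℂ) • D σ p (PP s f) (D σ q (PP s (PP s g)) β)
      - D σ p f (D σ q (PP s (PP s (PP s g))) β) ∈ LL σ (k+3) := by
  have hPf := hom_PP σ hs hf
  have hPg := hom_PP σ hs hg
  have hse := hom_even σ hs
  have hss : hom σ false (s * s) := hom_mul σ hse hse
  have h1 := idA σ hσ s hs p q (PP s f) g β hPf hg
  have h2 := idA σ hσ s hs p q f (PP s g) β hf hPg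
  have e0 : D σ p (PP s (PP s (PP s f))) (D σ q g β) - (3:ℂ) • D σ p (PP s (PP s f)) (D σ q (PP s g) β)
      + (3:ℂ) • D σ p (PP s f) (D σ q (PP s (PP s g)) β)
      - D σ p f (D σ q (PP s (PP s (PP s g))) β)
      = (D σ p (PP s (PP s (PP s f))) (D σ q g β) - (2:ℂ) • D σ p (PP s (PP s f)) (D σ q (PP s g) β)
      + D σ p (PP s f) (D σ q (PP s (PP s g)) β))
      - (D σ p (PP s (PP s f)) (D σ q (PP s g) β) - (2:ℂ) • D σ p (PP s f) (D σ q (PP s (PP s g)) β)
      + D σ p f (D σ q (PP s (PP s (PP s g))) β)) := by module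
  rw [e0, h1, h2]
  -- the circ terms
  set h' : A := (1/4 : ℂ) • D σ false s (D σ p f g) with hh'
  have hC := idC σ hσ s hs p q f g hf hg
  have hh'hom : hom σ (xor p q) h' := by
    refine hom_smul σ _ ?_
    have := hom_D σ hse (hom_D σ hf hg)
    simpa using this
  have hfg1 : D σ p f g ∈ LL σ 1 := LL_D0 σ hf (j := 0) trivial
  have hh'2 : h' ∈ LL σ 2 := Submodule.smul_mem _ _ (LL_D0 σ hse hfg1)
  have hPh' : PP s h' ∈ LL σ 1 := by
    rw [hh', map_smul, ← D_PP]
    exact Submodule.smul_mem _ _ (LL_D0 σ hse (j := 0) trivial)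
  have hB := idB σ hσ s hs (xor p q) h' β hh'hom
  have hcirc : circ σ (xor p q) (fog p q (PP s f) g) (D σ false s β)
      - circ σ (xor p q) (fog p q f (PP s g)) (D σ false s β)
      = circ σ (xor p q) h' (D σ false s β) := by
    rw [circ_sub, hC]
  have hcm : (2:ℂ) • D σ false s (circ σ (xor p q) (fog p q (PP s f) g) (D σ false s β))
      - (2:ℂ) • D σ false s (circ σ (xor p q) (fog p q f (PP s g)) (D σ false s β)) ∈ LL σ (k+3) := by
    rw [← smul_sub, ← D_sub_right, hcirc, hB]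
    have a1 : D σ false s (D σ (xor p q) (PP s h') β) ∈ LL σ (k+3) := by
      have := LL_D σ hσ (hom_PP σ hs hh'hom) hPh' hβ
      have := LL_D0 σ hse this
      rwa [show 1 + k + 1 + 1 = k + 3 by ring] at this
    have a2 : D σ (xor p q) (PP s h') (D σ false s β) ∈ LL σ (k+3) := by
      have := LL_D σ hσ (hom_PP σ hs hh'hom) hPh' (LL_D0 σ hse hβ)
      rwa [show 1 + (k + 1) + 1 = k + 3 by ring] at this
    have a3 : D σ false (s * s) (D σ (xor p q) h' β) ∈ LL σ (k+3) := by
      have := LL_D0 σ hss (LL_D σ hσ hh'hom hh'2 hβ)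
      exact LL_anti' σ (by omega) this
    have a4 : D σ (xor p q) h' (D σ false (s * s) β) ∈ LL σ (k+3) := by
      have := LL_D σ hσ hh'hom hh'2 (LL_D0 σ hss hβ)
      exact LL_anti' σ (by omega) this
    exact Submodule.sub_mem _ (Submodule.add_mem _ a1 a2) (Submodule.smul_mem _ _ (Submodule.add_mem _ a3 a4))
  have four : ∀ (f g : A), hom σ p f → hom σ q g →
      (1/4 : ℂ) • (D σ false s (D σ false s (D σ p f (D σ q g β)))
        + D σ p f (D σ q g (D σ false s (D σ false s β)))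
        + (2 * ep p q) • D σ false s (D σ q g (D σ p f (D σ false s β)))) ∈ LL σ (k+3) := by
    intro f g hf hg
    have b1 := LL_anti' σ (by omega : k + 3 ≤ k+1+1+1+1)
      (LL_D0 σ hse (LL_D0 σ hse (LL_D0 σ hf (LL_D0 σ hg hβ))))
    have b2 := LL_anti' σ (by omega : k + 3 ≤ k+1+1+1+1)
      (LL_D0 σ hf (LL_D0 σ hg (LL_D0 σ hse (LL_D0 σ hse hβ))))
    have b3 := LL_anti' σ (by omega : k + 3 ≤ k+1+1+1+1)
      (LL_D0 σ hse (LL_D0 σ hg (LL_D0 σ hf (LL_D0 σ hse hβ))))
    exact Submodule.smul_mem _ _ (Submodule.add_mem _ (Submodule.add_mem _ b1 b2) (Submodule.smul_mem _ _ b3))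
  have c1 := four _ _ hPf hg
  have c2 := four _ _ hf hPg
  have := Submodule.sub_mem _ (Submodule.sub_mem _ c1 c2) hcm
  convert this using 1
  module

/-- locality, last pair -/
theorem loc2 (hσ : ∀ a, σ (σ a) = a) (s : A) (hs : σ s = s) (p q : Bool) (f g : A)
    (hf : hom σ p f) (hg : hom σ q g) :
    D σ p (PP s (PP s (PP s f))) g - (3:ℂ) • D σ p (PP s (PP s f)) (PP s g)
      + (3:ℂ) • D σ p (PP s f) (PP s (PP s g))
      - D σ p f (PP s (PP s (PP s g))) ∈ LL σ 2 := by
  have hse := hom_even σ hs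
  have key : ∀ f g : A, hom σ p f → hom σ q g →
      D σ p (PP s (PP s f)) g - (2:ℂ) • D σ p (PP s f) (PP s g) + D σ p f (PP s (PP s g)) ∈ LL σ 3 := by
    intro f g hf hg
    have hPf := hom_PP σ hs hf
    have hPg := hom_PP σ hs hg
    have h1 := idCyc σ hσ s hs p q (PP s f) g hPf hg
    have h2 := idCyc σ hσ s hs p q f (PP s g) hf hPg
    have hC := idC σ hσ s hs p q f g hf hg
    have : D σ p (PP s (PP s f)) g - (2:ℂ) • D σ p (PP s f) (PP s g) + D σ p f (PP s (PP s g))
      = D σ false s ((1/4 : ℂ) • D σ false s (D σ p f g)) := by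
      rw [← hC, D_sub_right, ← h1, ← h2]; module
    rw [this]
    exact LL_D0 σ hse (Submodule.smul_mem _ _ (LL_D0 σ hse (LL_D0 σ hf (j := 0) trivial)))
  have k1 := key _ _ (hom_PP σ hs hf) hg
  have k2 := key _ _ hf (hom_PP σ hs hg)
  have := LL_anti' σ (by norm_num : 2 ≤ 3) (Submodule.sub_mem _ k1 k2)
  convert this using 1
  module

end Pool.Agent.H569_LCS
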