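import Pool.Agent.H569_LCS.Loc
import Pool.Agent.H569_LCS.J1216
set_option autoImplicit false
set_option linter.unusedSimpArgs false
set_option linter.unusedVariables false
set_option linter.unusedSectionVars false
namespace Pool.Agent.H569_LCS

variable {A : Type} [Ring A] [Algebra ℂ A] (σ : A →ₐ[ℂ] A)

/-- iterated bracket `[f k, [f (k-1), ... [f 1, f 0]]]` -/
noncomputable def mbr : ℕ → (ℕ → A) → A
  | 0, f => f 0
  | (k+1), f => sbr σ (f (k+1)) (mbr k f)

theorem mbr_mem (k : ℕ) (f : ℕ → A) : mbr σ k f ∈ LL σ k := by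
  induction k with
  | zero => trivial
  | succ k ih => exact sbr_mem σ _ ih

theorem mbr_congr (k : ℕ) (f g : ℕ → A) (h : ∀ j ≤ k, f j = g j) : mbr σ k f = mbr σ k g := by
  induction k with
  | zero => exact h 0 le_rfl
  | succ k ih =>
    simp only [mbr]
    rw [h (k+1) le_rfl, ih (fun j hj => h j (by omega))]

theorem mbr_add (k i : ℕ) (hi : i ≤ k) (f : ℕ → A) (a b : A) :
    mbr σ k (Function.update f i (a + b)) = mbr σ k (Function.update f i a) + mbr σ k (Function.update f i b) := by
  induction k with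
  | zero =>
    obtain rfl : i = 0 := by omega
    simp [mbr]
  | succ k ih =>
    simp only [mbr]
    rcases Nat.lt_or_ge i (k+1) with h | h
    · rw [ih (by omega), Function.update_of_ne (by omega), Function.update_of_ne (by omega),
        Function.update_of_ne (by omega), map_add]
    · obtain rfl : i = k + 1 := by omega
      have e : ∀ c : A, mbr σ k (Function.update f (k+1) c) = mbr σ k f := fun c =>
        mbr_congr σ k _ _ (fun j hj => Function.update_of_ne (by omega) _ _)
      rw [e, e, e, Function.update_self, Function.update_self, Function.update_self, map_add,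
        LinearMap.add_apply]

theorem mbr_smul (k i : ℕ) (hi : i ≤ k) (f : ℕ → A) (t : ℂ) (a : A) :
    mbr σ k (Function.update f i (t • a)) = t • mbr σ k (Function.update f i a) := by
  induction k with
  | zero =>
    obtain rfl : i = 0 := by omega
    simp [mbr]
  | succ k ih =>
    simp only [mbr]
    rcases Nat.lt_or_ge i (k+1) with h | h
    · rw [ih (by omega), Function.update_of_ne (by omega), Function.update_of_ne (by omega), map_smul]
    · obtain rfl : i = k + 1 := by omega
      have e : ∀ c : A, mbr σ k (Function.update f (k+1) c) = mbr σ k f := fun c =>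
        mbr_congr σ k _ _ (fun j hj => Function.update_of_ne (by omega) _ _)
      rw [e, e, Function.update_self, Function.update_self, map_smul, LinearMap.smul_apply]

/-- if one entry lies in `M_3` the iterated bracket lies one step deeper -/
theorem mbr_M3 (hσ : ∀ a, σ (σ a) = a) (k i : ℕ) (hk : 1 ≤ k) (hi : i ≤ k) (f : ℕ → A) (hf : f i ∈ M3 σ) :
    mbr σ k f ∈ LL σ (k+1) := by
  induction k, hk using Nat.le_induction with
  | base =>
    simp only [mbr]
    rcases Nat.lt_or_ge i 1 with h | h
    · obtain rfl : i = 0 := by omega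
      exact F1_right σ hσ hf _
    · obtain rfl : i = 1 := by omega
      exact F1 σ hσ hf 0 _ trivial
  | succ k hk ih =>
    simp only [mbr]
    rcases Nat.lt_or_ge i (k+1) with h | h
    · exact sbr_mem σ _ (ih (by omega))
    · obtain rfl : i = k + 1 := by omega
      exact F1 σ hσ hf k _ (mbr_mem σ k f)

/-- changing the entries by elements of `M_3` -/
theorem mbr_sub_M3 (hσ : ∀ a, σ (σ a) = a) (k : ℕ) (hk : 1 ≤ k) (f g : ℕ → A)
    (h : ∀ i ≤ k, f i - g i ∈ M3 σ) : mbr σ k f - mbr σ k g ∈ LL σ (k+1) := by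
  induction k, hk using Nat.le_induction with
  | base =>
    simp only [mbr]
    have e : sbr σ (f (0+1)) (f 0) - sbr σ (g (0+1)) (g 0)
        = sbr σ (f (0+1) - g (0+1)) (f 0) + sbr σ (g (0+1)) (f 0 - g 0) := by
      rw [map_sub, map_sub, LinearMap.sub_apply]; abel
    rw [e]
    exact Submodule.add_mem _ (F1 σ hσ (h 1 le_rfl) 0 _ trivial) (F1_right σ hσ (h 0 (by omega)) _)
  | succ k hk ih =>
    simp only [mbr]
    have e : sbr σ (f (k+1)) (mbr σ k f) - sbr σ (g (k+1)) (mbr σ k g)
        = sbr σ (f (k+1) - g (k+1)) (mbr σ k f) + sbr σ (g (k+1)) (mbr σ k f - mbr σ k g) := by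
      rw [map_sub, map_sub, LinearMap.sub_apply]; abel
    rw [e]
    exact Submodule.add_mem _ (F1 σ hσ (h (k+1) le_rfl) k _ (mbr_mem σ k f))
      (sbr_mem σ _ (ih (fun i hi => h i (by omega))))

/-- replace slots `i+1`, `i` -/
noncomputable def ZZ (s : A) (i : ℕ) (f : ℕ → A) (a b : ℕ) : ℕ → A := fun j =>
  if j = i + 1 then ((PP s : Module.End ℂ A) ^ a) (f j)
  else if j = i then ((PP s : Module.End ℂ A) ^ b) (f j) else f j

theorem hom_PP_pow {s : A} (hs : σ s = s) {p : Bool} {a : A} (ha : hom σ p a) (n : ℕ) :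
    hom σ p (((PP s : Module.End ℂ A) ^ n) a) := by
  induction n with
  | zero => simpa using ha
  | succ n ih => rw [pow_succ']; exact hom_PP σ hs ih

theorem mbr_loc (hσ : ∀ a, σ (σ a) = a) (s : A) (hs : σ s = s) (p : ℕ → Bool) (f : ℕ → A)
    (hf : ∀ j, hom σ (p j) (f j)) (k i : ℕ) (hi : i + 1 ≤ k) :
    mbr σ k (ZZ s i f 3 0) - (3:ℂ) • mbr σ k (ZZ s i f 2 1) + (3:ℂ) • mbr σ k (ZZ s i f 1 2)
      - mbr σ k (ZZ s i f 0 3) ∈ LL σ (k+1) := by
  induction k, hi using Nat.le_induction with
  | base =>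
    have z1 : ∀ a b, ZZ s i f a b (i+1) = ((PP s : Module.End ℂ A) ^ a) (f (i+1)) := by
      intro a b; simp [ZZ]
    have z0 : ∀ a b, ZZ s i f a b i = ((PP s : Module.End ℂ A) ^ b) (f i) := by
      intro a b; simp [ZZ]
    have hpow : ∀ (j n : ℕ), hom σ (p j) (((PP s : Module.End ℂ A) ^ n) (f j)) :=
      fun j n => hom_PP_pow σ hs (hf j) n
    cases i with
    | zero =>
      simp only [mbr, z0, z1]
      rw [sbr_of_hom σ (hpow _ _), sbr_of_hom σ (hpow _ _), sbr_of_hom σ (hpow _ _), sbr_of_hom σ (hpow _ _)]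
      have := loc2 σ hσ s hs (p (0+1)) (p 0) (f (0+1)) (f 0) (hf _) (hf _)
      simpa only [pow_succ', pow_zero, Module.End.mul_apply, Module.End.one_apply] using this
    | succ i =>
      have hc : ∀ a b, mbr σ i (ZZ s (i+1) f a b) = mbr σ i f := fun a b =>
        mbr_congr σ i _ _ (fun j hj => by
          simp only [ZZ]; rw [if_neg (by omega), if_neg (by omega)])
      simp only [mbr, hc, z1]
      simp only [z0]
      rw [sbr_of_hom σ (hpow _ _), sbr_of_hom σ (hpow _ _), sbr_of_hom σ (hpow _ _), sbr_of_hom σ (hpow _ _),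
        sbr_of_hom σ (hpow _ _), sbr_of_hom σ (hpow _ _), sbr_of_hom σ (hpow _ _), sbr_of_hom σ (hpow _ _)]
      have := loc3 σ hσ s hs (p (i+1+1)) (p (i+1)) (f (i+1+1)) (f (i+1)) (mbr σ i f) (hf _) (hf _) i (mbr_mem σ i f)
      simpa only [pow_succ', pow_zero, Module.End.mul_apply, Module.End.one_apply] using this
  | succ k hk ih =>
    simp only [mbr]
    have z : ∀ a b, ZZ s i f a b (k+1) = f (k+1) := by
      intro a b; simp only [ZZ]; rw [if_neg (by omega), if_neg (by omega)]
    rw [z, z, z, z, ← map_smul, ← map_smul, ← map_sub, ← map_add, ← map_sub]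
    exact sbr_mem σ _ ih

end Pool.Agent.H569_LCS
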