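import Pool.Agent.H569_LCS.Ops
set_option autoImplicit false
set_option linter.unusedSimpArgs false
set_option linter.unusedVariables false
set_option linter.unusedSectionVars false
namespace Pool.Agent.H569_LCS

section abstract
variable {A : Type} [Ring A] [Algebra ℂ A] (σ : A →ₐ[ℂ] A)

/-- `[s, ·]` as a linear map -/
noncomputable def ds (s : A) : A →ₗ[ℂ] A := LinearMap.mulLeft ℂ s - LinearMap.mulRight ℂ s

theorem ds_apply (s a : A) : ds s a = s * a - a * s := rfl

theorem ds_eq_D (s a : A) : ds s a = D σ false s a := rfl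

theorem ds_mul (s a b : A) : ds s (a * b) = ds s a * b + a * ds s b := by
  simp only [ds_apply, sub_mul, mul_sub, mul_assoc]; abel

theorem ds_ds_mem {s : A} (hs : σ s = s) (a : A) : ds s (ds s a) ∈ LL σ 2 := by
  rw [ds_eq_D σ, ds_eq_D σ]
  exact LL_D0 σ (hom_even σ hs) (LL_D0 σ (hom_even σ hs) (j := 0) trivial)

theorem ds_ds_M3 {s : A} (hs : σ s = s) (a : A) : ds s (ds s a) ∈ M3 σ := LL2_le_M3 σ (ds_ds_mem σ hs a)

theorem ds_mul_ds (hσ : ∀ a, σ (σ a) = a) {s : A} (hs : σ s = s) (a c : A) : ds s a * ds s c ∈ M3 σ := by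
  have : ds s a * ds s c = (1/2 : ℂ) • (ds s (ds s (a * c)) - ds s (ds s a) * c - a * ds s (ds s c)) := by
    rw [ds_mul, map_add, ds_mul, ds_mul]; module
  rw [this]
  exact Submodule.smul_mem _ _ (Submodule.sub_mem _ (Submodule.sub_mem _ (ds_ds_M3 σ hs _)
    (M3_mul_right σ hσ (ds_ds_M3 σ hs _) _)) (M3_mul_left σ _ (ds_ds_M3 σ hs _)))

theorem ds_mul_mul_ds (hσ : ∀ a, σ (σ a) = a) {s : A} (hs : σ s = s) (a b c : A) :
    ds s a * b * ds s c ∈ M3 σ := by
  have : ds s a * b * ds s c = ds s a * ds s (b * c) - ds s a * ds s b * c := by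
    rw [ds_mul, mul_add]; simp only [mul_assoc]; abel
  rw [this]
  exact Submodule.sub_mem _ (ds_mul_ds σ hσ hs _ _) (M3_mul_right σ hσ (ds_mul_ds σ hσ hs _ _) _)

/-- the two-sided ideal generated by `[s, A]` -/
def IS (s : A) : Submodule ℂ A := Submodule.span ℂ {x | ∃ a b c, x = a * ds s b * c}

theorem IS_gen (s a b c : A) : a * ds s b * c ∈ IS s := Submodule.subset_span ⟨a, b, c, rfl⟩

theorem IS_le {s : A} {W : Submodule ℂ A} (h : ∀ a b c, a * ds s b * c ∈ W) : IS s ≤ W := by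
  rw [IS, Submodule.span_le]; rintro _ ⟨a, b, c, rfl⟩; exact h a b c

theorem IS_mul_left {s : A} (u : A) {x : A} (hx : x ∈ IS s) : u * x ∈ IS s := by
  have : IS s ≤ (IS s).comap (LinearMap.mulLeft ℂ u) := IS_le (fun a b c => by
    rw [Submodule.mem_comap, LinearMap.mulLeft_apply, ← mul_assoc, ← mul_assoc]; exact IS_gen s _ _ _)
  exact this hx

theorem IS_mul_right {s : A} (u : A) {x : A} (hx : x ∈ IS s) : x * u ∈ IS s := by
  have : IS s ≤ (IS s).comap (LinearMap.mulRight ℂ u) := IS_le (fun a b c => by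
    rw [Submodule.mem_comap, LinearMap.mulRight_apply, mul_assoc]; exact IS_gen s _ _ _)
  exact this hx

theorem IS_ds_right (hσ : ∀ a, σ (σ a) = a) {s : A} (hs : σ s = s) (b' : A) {x : A} (hx : x ∈ IS s) :
    x * ds s b' ∈ M3 σ := by
  have : IS s ≤ (M3 σ).comap (LinearMap.mulRight ℂ (ds s b')) := IS_le (fun a b c => by
    rw [Submodule.mem_comap, LinearMap.mulRight_apply, mul_assoc, mul_assoc, ← mul_assoc (ds s b)]
    exact M3_mul_left σ _ (ds_mul_mul_ds σ hσ hs _ _ _))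
  exact this hx

theorem IS_ds_left (hσ : ∀ a, σ (σ a) = a) {s : A} (hs : σ s = s) (b' : A) {x : A} (hx : x ∈ IS s) :
    ds s b' * x ∈ M3 σ := by
  have : IS s ≤ (M3 σ).comap (LinearMap.mulLeft ℂ (ds s b')) := IS_le (fun a b c => by
    rw [Submodule.mem_comap, LinearMap.mulLeft_apply, ← mul_assoc, ← mul_assoc]
    exact M3_mul_right σ hσ (ds_mul_mul_ds σ hσ hs _ _ _) _)
  exact this hx

theorem IS_ds (hσ : ∀ a, σ (σ a) = a) {s : A} (hs : σ s = s) {x : A} (hx : x ∈ IS s) :
    ds s x ∈ M3 σ := by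
  have : IS s ≤ (M3 σ).comap (ds s) := IS_le (fun a b c => by
    rw [Submodule.mem_comap, ds_mul, ds_mul, add_mul]
    refine Submodule.add_mem _ (Submodule.add_mem _ ?_ ?_) ?_
    · exact M3_mul_right σ hσ (ds_mul_ds σ hσ hs _ _) _
    · exact M3_mul_right σ hσ (M3_mul_left σ _ (ds_ds_M3 σ hs _)) _
    · rw [mul_assoc]; exact M3_mul_left σ _ (ds_mul_ds σ hσ hs _ _))
  exact this hx

theorem PP_M3 (hσ : ∀ a, σ (σ a) = a) (s : A) {x : A} (hx : x ∈ M3 σ) : PP s x ∈ M3 σ := by
  rw [PP_apply]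
  exact Submodule.smul_mem _ _ (Submodule.add_mem _ (M3_mul_left σ _ hx) (M3_mul_right σ hσ hx _))

theorem N_IS (hσ : ∀ a, σ (σ a) = a) {s : A} (hs : σ s = s) (X E : A →ₗ[ℂ] A)
    (hX : ∀ a b, X (a * b) = X a * b + a * X b) (hE : ∀ a b, E (a * b) = E a * b + a * E b)
    (hXs : X s = 0) (hEs : E s = 0) (hNA : ∀ a, X a - PP s (E a) ∈ IS s) {x : A} (hx : x ∈ IS s) :
    X x - PP s (E x) ∈ M3 σ := by
  have : IS s ≤ (M3 σ).comap (X - PP s ∘ₗ E) := IS_le (fun a b c => by
    rw [Submodule.mem_comap, LinearMap.sub_apply, LinearMap.comp_apply]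
    have key : X (a * ds s b * c) - PP s (E (a * ds s b * c))
        = (X a - PP s (E a)) * ds s b * c + a * ds s (X b - PP s (E b)) * c + a * (ds s b * (X c - PP s (E c)))
          + (1/2 : ℂ) • (E a * (ds s (ds s b) * c + ds s b * ds s c))
          + (1/2 : ℂ) • (a * (ds s (E b) * ds s c) - ds s a * ds s (E b) * c)
          - (1/2 : ℂ) • ((ds s a * ds s b + a * ds s (ds s b)) * E c) := by
      simp only [ds_apply, PP_apply, hX, hE, hXs, hEs, map_sub, mul_sub, sub_mul, mul_add, add_mul, mul_assoc,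
        smul_mul_assoc, mul_smul_comm, smul_sub, smul_add, zero_mul, mul_zero, sub_zero, zero_sub, add_zero, zero_add]
      module
    rw [key]
    refine Submodule.sub_mem _ (Submodule.add_mem _ (Submodule.add_mem _ (Submodule.add_mem _
      (Submodule.add_mem _ ?_ ?_) ?_) ?_) ?_) ?_
    · exact M3_mul_right σ hσ (IS_ds_right σ hσ hs _ (hNA a)) _
    · exact M3_mul_right σ hσ (M3_mul_left σ _ (IS_ds σ hσ hs (hNA b))) _
    · exact M3_mul_left σ _ (IS_ds_left σ hσ hs _ (hNA c))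
    · exact Submodule.smul_mem _ _ (M3_mul_left σ _ (Submodule.add_mem _
        (M3_mul_right σ hσ (ds_ds_M3 σ hs _) _) (ds_mul_ds σ hσ hs _ _)))
    · exact Submodule.smul_mem _ _ (Submodule.sub_mem _ (M3_mul_left σ _ (ds_mul_ds σ hσ hs _ _))
        (M3_mul_right σ hσ (ds_mul_ds σ hσ hs _ _) _))
    · exact Submodule.smul_mem _ _ (M3_mul_right σ hσ (Submodule.add_mem _ (ds_mul_ds σ hσ hs _ _)
        (M3_mul_left σ _ (ds_ds_M3 σ hs _))) _))
  exact this hx

theorem N_sq (hσ : ∀ a, σ (σ a) = a) {s : A} (hs : σ s = s) (X E : A →ₗ[ℂ] A)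
    (hX : ∀ a b, X (a * b) = X a * b + a * X b) (hE : ∀ a b, E (a * b) = E a * b + a * E b)
    (hXs : X s = 0) (hEs : E s = 0) (hNA : ∀ a, X a - PP s (E a) ∈ IS s)
    (hEP : ∀ a, E (PP s a) = PP s (E a)) (hEX : ∀ a, E (X a) = X (E a))
    (hPX : ∀ a, X (PP s a) = PP s (X a)) (c : ℂ) (a : A) (ha : E a = c • a) :
    X (X a) - (2 * c) • X (PP s a) + (c ^ 2) • PP s (PP s a) ∈ M3 σ := by
  have := N_IS σ hσ hs X E hX hE hXs hEs hNA (hNA a)
  convert this using 1
  rw [map_sub, map_sub, hEX, hEP, ha]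
  simp only [map_smul, ha, map_sub, hPX]
  module

end abstract

variable {ι : Type} [DecidableEq ι] [Fintype ι] (par : ι → Bool) (w : ι)

theorem N_mem_IS (a : FreeAlgebra ℂ ι) : XX par w a - PP (ss par w) (EE w a) ∈ IS (ss par w) := by
  induction a using FreeAlgebra.induction with
  | grade0 r => simp [XX, EE, der_algebraMap]
  | grade1 x =>
    rw [XX_ι, EE_ι]
    by_cases h : x = w
    · simp [h]
    · rw [if_neg h, if_neg h, sub_self]; exact Submodule.zero_mem _
  | mul a b ha hb =>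
    have key : XX par w (a * b) - PP (ss par w) (EE w (a * b))
        = (XX par w a - PP (ss par w) (EE w a)) * b + a * (XX par w b - PP (ss par w) (EE w b))
          + (1/2 : ℂ) • (EE w a * ds (ss par w) b * 1) - (1/2 : ℂ) • (1 * ds (ss par w) a * EE w b) := by
      rw [XX_mul, EE_mul]
      simp only [ds_apply, PP_apply, mul_sub, sub_mul, mul_add, add_mul, mul_assoc, mul_one, one_mul,
        smul_mul_assoc, mul_smul_comm, smul_sub, smul_add]
      module
    rw [key]
    exact Submodule.sub_mem _ (Submodule.add_mem _ (Submodule.add_mem _ (IS_mul_right _ ha) (IS_mul_left _ hb))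
      (Submodule.smul_mem _ _ (IS_gen _ _ _ _))) (Submodule.smul_mem _ _ (IS_gen _ _ _ _))
  | add a b ha hb =>
    have : XX par w (a + b) - PP (ss par w) (EE w (a + b))
      = (XX par w a - PP (ss par w) (EE w a)) + (XX par w b - PP (ss par w) (EE w b)) := by
      simp only [map_add]; abel
    rw [this]; exact Submodule.add_mem _ ha hb

theorem hN_concrete (c : ℂ) (a : FreeAlgebra ℂ ι) (ha : EE w a = c • a) :
    XX par w (XX par w a) - (2 * c) • XX par w (PP (ss par w) a) + (c ^ 2) • PP (ss par w) (PP (ss par w) a)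
      ∈ M3 (sig par) :=
  N_sq (sig par) (sig_sig par) (sig_ss par w) (XX par w) (EE w) (XX_mul par w) (EE_mul w) (XX_ss par w)
    (EE_ss par w) (N_mem_IS par w) (EE_PP par w) (EE_XX par w) (XX_PP par w) c a ha

end Pool.Agent.H569_LCS
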