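import Pool.Agent.H569_LCS.Der
set_option autoImplicit false
set_option linter.unusedSimpArgs false
set_option linter.unusedVariables false
set_option linter.unusedSectionVars false
namespace Pool.Agent.H569_LCS

variable {ι : Type} [DecidableEq ι] [Fintype ι] (par : ι → Bool) (w : ι)

/-- the even element `s`: the generator if it is even, its square if it is odd -/
noncomputable def ss : FreeAlgebra ℂ ι :=
  bif par w then FreeAlgebra.ι ℂ w * FreeAlgebra.ι ℂ w else FreeAlgebra.ι ℂ w

/-- its degree -/
def pw : ℕ := bif par w then 2 else 1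

theorem sig_ss : sig par (ss par w) = ss par w := by
  cases h : par w
  · simp only [ss, h, cond_false, sig_ι, sg, one_smul]
  · simp only [ss, h, cond_true, map_mul, sig_ι, sg, neg_smul, one_smul, neg_mul, mul_neg, neg_neg]

theorem ι_mem_G (x : ι) : FreeAlgebra.ι ℂ x ∈ G (Finsupp.single x 1) := by
  have := wd_mem_G (FreeMonoid.of x)
  rwa [wd_of, dg_of] at this

theorem one_mem_G : (1 : FreeAlgebra ℂ ι) ∈ G (0 : ι →₀ ℕ) := by
  have := wd_mem_G (1 : FreeMonoid ι)
  rwa [map_one, dg_one] at this

theorem ss_mem_G : ss par w ∈ G (Finsupp.single w (pw par w)) := by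
  cases h : par w
  · simp only [ss, pw, h, cond_false]; exact ι_mem_G w
  · simp only [ss, pw, h, cond_true]
    have := G_mul (ι_mem_G w) (ι_mem_G w)
    rwa [← Finsupp.single_add] at this

/-- degree operator in the other variables -/
noncomputable def EE : FreeAlgebra ℂ ι →ₗ[ℂ] FreeAlgebra ℂ ι :=
  der (AlgHom.id ℂ _) (fun x => if x = w then 0 else FreeAlgebra.ι ℂ x)

/-- the even derivation `x ↦ s ∘ x` -/
noncomputable def XX : FreeAlgebra ℂ ι →ₗ[ℂ] FreeAlgebra ℂ ι :=
  der (AlgHom.id ℂ _) (fun x => if x = w then 0 else PP (ss par w) (FreeAlgebra.ι ℂ x))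

/-- the odd derivation `∂/∂w` -/
noncomputable def DD : FreeAlgebra ℂ ι →ₗ[ℂ] FreeAlgebra ℂ ι :=
  der (sig par) (fun x => if x = w then 1 else 0)

/-- the odd derivation `x ↦ w x` -/
noncomputable def YY : FreeAlgebra ℂ ι →ₗ[ℂ] FreeAlgebra ℂ ι :=
  der (sig par) (fun x => if x = w then 0 else FreeAlgebra.ι ℂ w * FreeAlgebra.ι ℂ x)

theorem EE_mul (a b : FreeAlgebra ℂ ι) : EE w (a * b) = EE w a * b + a * EE w b := der_mul _ _ a b
theorem XX_mul (a b : FreeAlgebra ℂ ι) : XX par w (a * b) = XX par w a * b + a * XX par w b := der_mul _ _ a b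
theorem DD_mul (a b : FreeAlgebra ℂ ι) : DD par w (a * b) = DD par w a * b + sig par a * DD par w b := der_mul _ _ a b
theorem YY_mul (a b : FreeAlgebra ℂ ι) : YY par w (a * b) = YY par w a * b + sig par a * YY par w b := der_mul _ _ a b

theorem EE_ι (x : ι) : EE w (FreeAlgebra.ι ℂ x) = if x = w then 0 else FreeAlgebra.ι ℂ x := der_ι _ _ x
theorem XX_ι (x : ι) : XX par w (FreeAlgebra.ι ℂ x) = if x = w then 0 else PP (ss par w) (FreeAlgebra.ι ℂ x) := der_ι _ _ x
theorem DD_ι (x : ι) : DD par w (FreeAlgebra.ι ℂ x) = if x = w then 1 else 0 := der_ι _ _ x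
theorem YY_ι (x : ι) : YY par w (FreeAlgebra.ι ℂ x) = if x = w then 0 else FreeAlgebra.ι ℂ w * FreeAlgebra.ι ℂ x := der_ι _ _ x

theorem EE_ss : EE w (ss par w) = 0 := by
  cases h : par w
  · simp only [ss, h, cond_false, EE_ι, if_true]
  · simp only [ss, h, cond_true, EE_mul, EE_ι, if_true, zero_mul, mul_zero, add_zero]

theorem XX_ss : XX par w (ss par w) = 0 := by
  have h0 : XX par w (FreeAlgebra.ι ℂ w) = 0 := by rw [XX_ι, if_pos rfl]
  cases h : par w
  · simp only [ss, h, cond_false]; exact h0
  · simp only [ss, h, cond_true, XX_mul, h0, zero_mul, mul_zero, add_zero]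

theorem EE_PP (a : FreeAlgebra ℂ ι) : EE w (PP (ss par w) a) = PP (ss par w) (EE w a) := by
  rw [PP_apply, PP_apply, map_smul, map_add, EE_mul, EE_mul, EE_ss]
  simp

theorem XX_PP (a : FreeAlgebra ℂ ι) : XX par w (PP (ss par w) a) = PP (ss par w) (XX par w a) := by
  rw [PP_apply, PP_apply, map_smul, map_add, XX_mul, XX_mul, XX_ss]
  simp

theorem EE_XX (a : FreeAlgebra ℂ ι) : EE w (XX par w a) = XX par w (EE w a) := by
  induction a using FreeAlgebra.induction with
  | grade0 r => simp [EE, XX, der_algebraMap]
  | grade1 x =>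
    rw [XX_ι, EE_ι]
    by_cases h : x = w
    · simp [h]
    · rw [if_neg h, if_neg h, EE_PP, EE_ι, if_neg h, XX_ι, if_neg h]
  | mul a b ha hb =>
    simp only [XX_mul, EE_mul, map_add, ha, hb]; abel
  | add a b ha hb => simp only [map_add, ha, hb]

theorem XX_sig (a : FreeAlgebra ℂ ι) : XX par w (sig par a) = sig par (XX par w a) := by
  induction a using FreeAlgebra.induction with
  | grade0 r => rw [AlgHom.commutes]; simp [XX, der_algebraMap]
  | grade1 x =>
    rw [XX_ι, sig_ι, map_smul, XX_ι]
    by_cases h : x = w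
    · simp [h]
    · rw [if_neg h, PP_apply, map_smul, map_add, map_mul, map_mul, sig_ss, sig_ι]
      simp only [mul_smul_comm, smul_mul_assoc, smul_add]; module
  | mul a b ha hb =>
    simp only [XX_mul, map_mul, map_add, ha, hb]
  | add a b ha hb => simp only [map_add, ha, hb]

theorem DD_sig (hw : par w = true) (a : FreeAlgebra ℂ ι) : DD par w (sig par a) = - sig par (DD par w a) := by
  induction a using FreeAlgebra.induction with
  | grade0 r => rw [AlgHom.commutes]; simp [DD, der_algebraMap]
  | grade1 x =>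
    rw [DD_ι, sig_ι, map_smul, DD_ι]
    by_cases h : x = w
    · subst h; simp [hw, sg]
    · simp [h]
  | mul a b ha hb =>
    simp only [DD_mul, map_mul, map_add, ha, hb, mul_neg, neg_mul]; abel
  | add a b ha hb => simp only [map_add, ha, hb]; abel

theorem YY_sig (hw : par w = true) (a : FreeAlgebra ℂ ι) : YY par w (sig par a) = - sig par (YY par w a) := by
  induction a using FreeAlgebra.induction with
  | grade0 r => rw [AlgHom.commutes]; simp [YY, der_algebraMap]
  | grade1 x =>
    rw [YY_ι, sig_ι, map_smul, YY_ι]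
    by_cases h : x = w
    · simp [h]
    · rw [if_neg h, map_mul, sig_ι, sig_ι, hw]
      cases par x <;> simp [sg]
  | mul a b ha hb =>
    simp only [YY_mul, map_mul, map_add, ha, hb, mul_neg, neg_mul]; abel
  | add a b ha hb => simp only [map_add, ha, hb]; abel

theorem DD_DD (hw : par w = true) (a : FreeAlgebra ℂ ι) : DD par w (DD par w a) = 0 := by
  induction a using FreeAlgebra.induction with
  | grade0 r => simp [DD, der_algebraMap]
  | grade1 x =>
    rw [DD_ι]
    by_cases h : x = w
    · rw [if_pos h]; exact der_one _ _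
    · rw [if_neg h, map_zero]
  | mul a b ha hb =>
    simp only [DD_mul, map_add, ha, hb, DD_sig par w hw, zero_mul, mul_zero]; 
    simp
  | add a b ha hb => simp only [map_add, ha, hb, add_zero]

theorem DD_YY (hw : par w = true) (a : FreeAlgebra ℂ ι) :
    DD par w (YY par w a) + YY par w (DD par w a) = EE w a := by
  induction a using FreeAlgebra.induction with
  | grade0 r => simp [DD, YY, EE, der_algebraMap]
  | grade1 x =>
    rw [DD_ι, YY_ι, EE_ι]
    by_cases h : x = w
    · rw [if_pos h, if_pos h, if_pos h, map_zero, zero_add]; exact der_one _ _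
    · rw [if_neg h, if_neg h, if_neg h, map_zero, add_zero, DD_mul, DD_ι, DD_ι, if_pos rfl, if_neg h]
      simp
  | mul a b ha hb =>
    rw [YY_mul, DD_mul, map_add, map_add, DD_mul, DD_mul, YY_mul, YY_mul, EE_mul, ← ha, ← hb,
      DD_sig par w hw, YY_sig par w hw, sig_sig]
    simp only [add_mul, mul_add, neg_mul]
    abel
  | add a b ha hb =>
    simp only [map_add]
    rw [← ha, ← hb]; abel

/-- degree in the other variables -/
noncomputable def cc (d : ι →₀ ℕ) : ℕ := ∑ x, (if x = w then 0 else d x)

theorem cc_add (d e : ι →₀ ℕ) : cc w (d + e) = cc w d + cc w e := by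
  simp only [cc, ← Finset.sum_add_distrib]
  refine Finset.sum_congr rfl (fun x _ => ?_)
  split_ifs <;> simp

theorem cc_single (x : ι) (n : ℕ) : cc w (Finsupp.single x n) = if x = w then 0 else n := by
  rw [cc, Finset.sum_eq_single x]
  · simp
  · intro y _ hy
    rw [Finsupp.single_apply, if_neg (Ne.symm hy)]; simp
  · intro h; exact absurd (Finset.mem_univ _) h

theorem cc_zero : cc w (0 : ι →₀ ℕ) = 0 := by simp [cc]

theorem EE_wd (u : FreeMonoid ι) : EE w (wd u) = (cc w (dg u) : ℂ) • wd u := by
  induction u using FreeMonoid.recOn with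
  | one => rw [map_one, dg_one, cc_zero]; simp [EE, der_one]
  | of_mul x u ih =>
    rw [map_mul, EE_mul, ih, wd_of, EE_ι, dg_mul, dg_of, cc_add, cc_single]
    by_cases h : x = w
    · simp [h]
    · simp only [if_neg h, Nat.cast_add, Nat.cast_one, add_smul, one_smul, mul_smul_comm]

theorem EE_G {d : ι →₀ ℕ} {x : FreeAlgebra ℂ ι} (hx : x ∈ G d) : EE w x = (cc w d : ℂ) • x := by
  have : G d ≤ LinearMap.ker (EE w - (cc w d : ℂ) • LinearMap.id) := by
    refine G_le (fun u hu => ?_)
    simp [EE_wd, hu]
  have := this hx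
  simpa [sub_eq_zero] using this

theorem PP_G {d : ι →₀ ℕ} {x : FreeAlgebra ℂ ι} (hx : x ∈ G d) :
    PP (ss par w) x ∈ G (d + Finsupp.single w (pw par w)) := by
  rw [PP_apply]
  refine Submodule.smul_mem _ _ (Submodule.add_mem _ ?_ (G_mul hx (ss_mem_G par w)))
  rw [add_comm]; exact G_mul (ss_mem_G par w) hx

theorem XX_G {d : ι →₀ ℕ} {x : FreeAlgebra ℂ ι} (hx : x ∈ G d) :
    XX par w x ∈ G (d + Finsupp.single w (pw par w)) := by
  have key : ∀ u : FreeMonoid ι, XX par w (wd u) ∈ G (dg u + Finsupp.single w (pw par w)) := by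
    intro u
    induction u using FreeMonoid.recOn with
    | one => rw [map_one]; simp [XX, der_one]
    | of_mul x u ih =>
      rw [map_mul, XX_mul, wd_of, XX_ι, dg_mul, dg_of]
      refine Submodule.add_mem _ ?_ ?_
      · by_cases h : x = w
        · rw [if_pos h, zero_mul]; exact Submodule.zero_mem _
        · rw [if_neg h]
          have := G_mul (PP_G par w (ι_mem_G x)) (wd_mem_G u)
          rwa [add_right_comm] at this
      · have := G_mul (ι_mem_G x) ih
        rwa [← add_assoc] at this
  have : G d ≤ (G (d + Finsupp.single w (pw par w))).comap (XX par w) :=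
    G_le (fun u hu => by rw [Submodule.mem_comap, ← hu]; exact key u)
  exact this hx

theorem YY_G {d : ι →₀ ℕ} {x : FreeAlgebra ℂ ι} (hx : x ∈ G d) :
    YY par w x ∈ G (d + Finsupp.single w 1) := by
  have key : ∀ u : FreeMonoid ι, YY par w (wd u) ∈ G (dg u + Finsupp.single w 1) := by
    intro u
    induction u using FreeMonoid.recOn with
    | one => rw [map_one]; simp [YY, der_one]
    | of_mul x u ih =>
      rw [map_mul, YY_mul, wd_of, YY_ι, dg_mul, dg_of]
      refine Submodule.add_mem _ ?_ ?_
      · by_cases h : x = w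
        · rw [if_pos h, zero_mul]; exact Submodule.zero_mem _
        · rw [if_neg h]
          have := G_mul (G_mul (ι_mem_G w) (ι_mem_G x)) (wd_mem_G u)
          rwa [add_comm (Finsupp.single w 1), add_right_comm] at this
      · have := G_mul (sig_G par (ι_mem_G x)) ih
        rwa [← add_assoc] at this
  have : G d ≤ (G (d + Finsupp.single w 1)).comap (YY par w) :=
    G_le (fun u hu => by rw [Submodule.mem_comap, ← hu]; exact key u)
  exact this hx

theorem DD_wd_zero (u : FreeMonoid ι) (hu : dg u w = 0) : DD par w (wd u) = 0 := by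
  induction u using FreeMonoid.recOn with
  | one => rw [map_one]; exact der_one _ _
  | of_mul x u ih =>
    rw [dg_mul, dg_of, Finsupp.add_apply] at hu
    have hx : x ≠ w := by
      rintro rfl; simp at hu
    rw [map_mul, DD_mul, wd_of, DD_ι, if_neg hx, ih (by omega)]
    simp

theorem DD_wd (u : FreeMonoid ι) : ∀ d : ι →₀ ℕ, dg u = d + Finsupp.single w 1 → DD par w (wd u) ∈ G d := by
  induction u using FreeMonoid.recOn with
  | one => intro d _; rw [map_one]; simp [DD, der_one]
  | of_mul x u ih =>
    intro d hd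
    rw [dg_mul, dg_of] at hd
    rw [map_mul, DD_mul, wd_of, DD_ι]
    by_cases hx : x = w
    · subst hx
      have hd' : dg u = d := by
        rw [add_comm] at hd; exact add_right_cancel hd
      rw [if_pos rfl, one_mul]
      refine Submodule.add_mem _ (hd' ▸ wd_mem_G u) ?_
      by_cases h0 : dg u x = 0
      · rw [DD_wd_zero par x u h0, mul_zero]; exact Submodule.zero_mem _
      · have h1 : dg u = (dg u - Finsupp.single x 1) + Finsupp.single x 1 := by
          ext y
          simp only [Finsupp.add_apply, Finsupp.tsub_apply]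
          by_cases hy : y = x
          · subst hy; simp; omega
          · rw [Finsupp.single_apply, if_neg (Ne.symm hy)]; simp
        have := G_mul (sig_G par (ι_mem_G x)) (ih _ h1)
        rw [add_comm, ← h1, hd'] at this
        exact this
    · rw [if_neg hx, zero_mul, zero_add]
      have hw : dg u w = d w + 1 := by
        have := congrArg (fun f => f w) hd
        simp only [Finsupp.add_apply, Finsupp.single_apply, if_neg hx, if_true] at this
        omega
      have h1 : dg u = (dg u - Finsupp.single w 1) + Finsupp.single w 1 := by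
        ext y
        simp only [Finsupp.add_apply, Finsupp.tsub_apply]
        by_cases hy : y = w
        · subst hy; simp; omega
        · rw [Finsupp.single_apply, if_neg (Ne.symm hy)]; simp
      have h2 : Finsupp.single x 1 + (dg u - Finsupp.single w 1) = d := by
        apply add_right_cancel (b := Finsupp.single w 1)
        rw [add_assoc, ← h1, hd]
      have := G_mul (sig_G par (ι_mem_G x)) (ih _ h1)
      rwa [h2] at this

theorem DD_G {d : ι →₀ ℕ} {x : FreeAlgebra ℂ ι} (hx : x ∈ G (d + Finsupp.single w 1)) :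
    DD par w x ∈ G d := by
  have : G (d + Finsupp.single w 1) ≤ (G d).comap (DD par w) :=
    G_le (fun u hu => DD_wd par w u d hu)
  exact this hx

theorem proj_XX (d : ι →₀ ℕ) (x : FreeAlgebra ℂ ι) :
    proj (d + Finsupp.single w (pw par w)) (XX par w x) = XX par w (proj d x) := by
  have : (proj (d + Finsupp.single w (pw par w))) ∘ₗ (XX par w) = (XX par w) ∘ₗ (proj d) := by
    apply ext_wd
    intro u
    simp only [LinearMap.comp_apply]
    by_cases h : dg u = d
    · rw [proj_self (x := wd u) (h ▸ wd_mem_G u), proj_self]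
      rw [← h]; exact XX_G par w (wd_mem_G u)
    · rw [proj_ne h (wd_mem_G u), map_zero, proj_ne _ (XX_G par w (wd_mem_G u))]
      intro h'; exact h (add_right_cancel h')
  exact congrArg (fun f => f x) this

end Pool.Agent.H569_LCS
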