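import Pool.Agent.H569_LCS.Mbr
set_option autoImplicit false
set_option linter.unusedSimpArgs false
set_option linter.unusedVariables false
set_option linter.unusedSectionVars false
namespace Pool.Agent.H569_LCS
open MvPolynomial

variable {A : Type} [Ring A] [Algebra ℂ A] (σ : A →ₐ[ℂ] A)

/-- the action of a monomial: `P` powers from `inl`, `X` powers from `inr` -/
noncomputable def act (P X : Module.End ℂ A) (e : (ℕ ⊕ ℕ) →₀ ℕ) (f : ℕ → A) : ℕ → A := fun j =>
  (P ^ (e (Sum.inl j))) ((X ^ (e (Sum.inr j))) (f j))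

theorem act_add (P X : Module.End ℂ A) (hPX : Commute P X) (e e' : (ℕ ⊕ ℕ) →₀ ℕ) (f : ℕ → A) :
    act P X (e + e') f = act P X e' (act P X e f) := by
  funext j
  simp only [act, Finsupp.add_apply]
  rw [← Module.End.mul_apply, ← Module.End.mul_apply, ← Module.End.mul_apply, ← Module.End.mul_apply]
  congr 1
  rw [add_comm (e (Sum.inl j)), pow_add, add_comm (e (Sum.inr j)), pow_add]
  have := (hPX.pow_pow (e (Sum.inl j)) (e' (Sum.inr j)))
  rw [mul_assoc, ← mul_assoc (P ^ e (Sum.inl j)), this.eq]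
  simp only [mul_assoc]

theorem act_zero (P X : Module.End ℂ A) (f : ℕ → A) : act P X 0 f = f := by
  funext j; simp [act]

/-- the linear map on polynomials -/
noncomputable def Phi (P X : Module.End ℂ A) (k : ℕ) (f : ℕ → A) : MvPolynomial (ℕ ⊕ ℕ) ℂ →ₗ[ℂ] A :=
  (basisMonomials (ℕ ⊕ ℕ) ℂ).constr ℂ (fun e => mbr σ k (act P X e f))

theorem Phi_monomial (P X : Module.End ℂ A) (k : ℕ) (f : ℕ → A) (e : (ℕ ⊕ ℕ) →₀ ℕ) (c : ℂ) :
    Phi σ P X k f (monomial e c) = c • mbr σ k (act P X e f) := by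
  have h1 : monomial e c = c • (basisMonomials (ℕ ⊕ ℕ) ℂ e) := by
    rw [coe_basisMonomials, smul_monomial, smul_eq_mul, mul_one]
  rw [h1, map_smul, Phi, Module.Basis.constr_basis]

theorem Phi_monomial_mul (P X : Module.End ℂ A) (hPX : Commute P X) (k : ℕ) (f : ℕ → A)
    (e : (ℕ ⊕ ℕ) →₀ ℕ) (c : ℂ) (q : MvPolynomial (ℕ ⊕ ℕ) ℂ) :
    Phi σ P X k f (monomial e c * q) = c • Phi σ P X k (act P X e f) q := by
  induction q using MvPolynomial.induction_on' with
  | monomial u a =>
    rw [monomial_mul, Phi_monomial, Phi_monomial, act_add P X hPX, mul_smul]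
  | add p q hp hq =>
    rw [mul_add, map_add, map_add, hp, hq, smul_add]

variable (P X E : Module.End ℂ A)

/-- the class of admissible tuples -/
def Adm (p : ℕ → Bool) (c : ℕ → ℂ) (f : ℕ → A) : Prop :=
  ∀ j, hom σ (p j) (f j) ∧ E (f j) = c j • f j

theorem Adm_act (hP : ∀ p a, hom σ p a → hom σ p (P a)) (hX : ∀ p a, hom σ p a → hom σ p (X a))
    (hEP : ∀ a, E (P a) = P (E a)) (hEX : ∀ a, E (X a) = X (E a))
    (p : ℕ → Bool) (c : ℕ → ℂ) (f : ℕ → A) (hf : Adm σ E p c f) (e : (ℕ ⊕ ℕ) →₀ ℕ) :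
    Adm σ E p c (act P X e f) := by
  have keyX : ∀ (n : ℕ) (p : Bool) (c : ℂ) (a : A), hom σ p a ∧ E a = c • a →
      hom σ p ((X ^ n) a) ∧ E ((X ^ n) a) = c • (X ^ n) a := by
    intro n p c a h
    induction n with
    | zero => simpa using h
    | succ n ih =>
      rw [pow_succ', Module.End.mul_apply]
      exact ⟨hX _ _ ih.1, by rw [hEX, ih.2, map_smul]⟩
  have keyP : ∀ (n : ℕ) (p : Bool) (c : ℂ) (a : A), hom σ p a ∧ E a = c • a →
      hom σ p ((P ^ n) a) ∧ E ((P ^ n) a) = c • (P ^ n) a := by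
    intro n p c a h
    induction n with
    | zero => simpa using h
    | succ n ih =>
      rw [pow_succ', Module.End.mul_apply]
      exact ⟨hP _ _ ih.1, by rw [hEP, ih.2, map_smul]⟩
  intro j
  exact keyP _ _ _ _ (keyX _ _ _ _ (hf j))

/-- the ideal of polynomials killed modulo `K` -/
noncomputable def JJ (hP : ∀ p a, hom σ p a → hom σ p (P a)) (hX : ∀ p a, hom σ p a → hom σ p (X a))
    (hEP : ∀ a, E (P a) = P (E a)) (hEX : ∀ a, E (X a) = X (E a)) (hPX : Commute P X)
    (p : ℕ → Bool) (c : ℕ → ℂ) (k : ℕ) (K : Submodule ℂ A) : Ideal (MvPolynomial (ℕ ⊕ ℕ) ℂ) where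
  carrier := {q | ∀ f, Adm σ E p c f → Phi σ P X k f q ∈ K}
  add_mem' := fun ha hb f hf => by rw [map_add]; exact K.add_mem (ha f hf) (hb f hf)
  zero_mem' := fun f hf => by rw [map_zero]; exact K.zero_mem
  smul_mem' := fun r q hq => by
    show ∀ f, Adm σ E p c f → Phi σ P X k f (r * q) ∈ K
    induction r using MvPolynomial.induction_on' with
    | monomial u a =>
      intro f hf
      rw [Phi_monomial_mul σ P X hPX]
      exact K.smul_mem _ (hq _ (Adm_act σ P X E hP hX hEP hEX p c f hf u))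
    | add r r' h h' =>
      intro f hf
      rw [add_mul, map_add]
      exact K.add_mem (h f hf) (h' f hf)

theorem mem_JJ (hP : ∀ p a, hom σ p a → hom σ p (P a)) (hX : ∀ p a, hom σ p a → hom σ p (X a))
    (hEP : ∀ a, E (P a) = P (E a)) (hEX : ∀ a, E (X a) = X (E a)) (hPX : Commute P X)
    (p : ℕ → Bool) (c : ℕ → ℂ) (k : ℕ) (K : Submodule ℂ A) (q : MvPolynomial (ℕ ⊕ ℕ) ℂ) :
    q ∈ JJ σ P X E hP hX hEP hEX hPX p c k K ↔ ∀ f, Adm σ E p c f → Phi σ P X k f q ∈ K := Iff.rfl

theorem act_single_inl (i n : ℕ) (f : ℕ → A) :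
    act P X (Finsupp.single (Sum.inl i) n) f = Function.update f i ((P ^ n) (f i)) := by
  funext j
  by_cases h : j = i
  · subst h; simp [act]
  · have : Finsupp.single (Sum.inl i : ℕ ⊕ ℕ) n (Sum.inl j) = 0 := by
      rw [Finsupp.single_apply, if_neg]; simpa using fun h' => h h'.symm
    simp [act, this, h]

theorem act_single_inr (i n : ℕ) (f : ℕ → A) :
    act P X (Finsupp.single (Sum.inr i) n) f = Function.update f i ((X ^ n) (f i)) := by
  funext j
  by_cases h : j = i
  · subst h; simp [act]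
  · have : Finsupp.single (Sum.inr i : ℕ ⊕ ℕ) n (Sum.inr j) = 0 := by
      rw [Finsupp.single_apply, if_neg]; simpa using fun h' => h h'.symm
    simp [act, this, h]

theorem act_single_both (i : ℕ) (f : ℕ → A) :
    act P X (Finsupp.single (Sum.inr i) 1 + Finsupp.single (Sum.inl i) 1) f
      = Function.update f i (P (X (f i))) := by
  funext j
  by_cases h : j = i
  · subst h; simp [act]
  · have h1 : Finsupp.single (Sum.inr i : ℕ ⊕ ℕ) 1 (Sum.inr j) = 0 := by
      rw [Finsupp.single_apply, if_neg]; simpa using fun h' => h h'.symm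
    have h2 : Finsupp.single (Sum.inl i : ℕ ⊕ ℕ) 1 (Sum.inl j) = 0 := by
      rw [Finsupp.single_apply, if_neg]; simpa using fun h' => h h'.symm
    simp [act, h1, h2, h]

theorem act_ZZ (s : A) (i a b : ℕ) (f : ℕ → A) :
    act (PP s) X (Finsupp.single (Sum.inl (i+1)) a + Finsupp.single (Sum.inl i) b) f = ZZ s i f a b := by
  funext j
  simp only [act, ZZ, Finsupp.add_apply, Finsupp.single_apply, Sum.inl.injEq, reduceCtorEq, if_false,
    add_zero, pow_zero, Module.End.one_apply]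
  by_cases h1 : j = i + 1
  · subst h1
    simp
  · by_cases h2 : j = i
    · subst h2
      simp
    · rw [if_neg (fun h => h1 h.symm), if_neg (fun h => h2 h.symm), if_neg h1, if_neg h2]
      simp

/-- Leibniz rule for iterated brackets -/
theorem mbr_leibniz (hXm : ∀ a b, X (sbr σ a b) = sbr σ (X a) b + sbr σ a (X b)) (k : ℕ) (f : ℕ → A) :
    X (mbr σ k f) = ∑ i ∈ Finset.range (k+1), mbr σ k (Function.update f i (X (f i))) := by
  induction k with
  | zero => simp [mbr]
  | succ k ih =>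
    rw [Finset.sum_range_succ]
    simp only [mbr]
    rw [hXm, ih, map_sum, add_comm]
    congr 1
    · refine Finset.sum_congr rfl (fun i hi => ?_)
      rw [Function.update_of_ne (by have := Finset.mem_range.1 hi; omega)]
    · have e : mbr σ k (Function.update f (k+1) (X (f (k+1)))) = mbr σ k f :=
        mbr_congr σ k _ f (fun j hj => Function.update_of_ne (by omega) _ _)
      rw [Function.update_self, e]

/-- The main abstract surjectivity statement. -/
theorem surj_abs (hσ : ∀ a, σ (σ a) = a) (k : ℕ) (hk : 1 ≤ k) : ∃ M : ℕ, 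
    ∀ (s : A) (hs : σ s = s) (X E : Module.End ℂ A)
    (hX : ∀ p a, hom σ p a → hom σ p (X a))
    (hEP : ∀ a, E (PP s a) = PP s (E a)) (hEX : ∀ a, E (X a) = X (E a))
    (hPX : ∀ a, X (PP s a) = PP s (X a))
    (hXm : ∀ a b, X (sbr σ a b) = sbr σ (X a) b + sbr σ a (X b))
    (hN : ∀ (c : ℂ) (a : A), E a = c • a →
      X (X a) - (2 * c) • X (PP s a) + (c ^ 2) • PP s (PP s a) ∈ M3 σ)
    (p : ℕ → Bool) (c : ℕ → ℂ) (f : ℕ → A) (hf : Adm σ E p c f)
    (hc : ∑ i ∈ Finset.range (k+1), c i ≠ 0)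
    (e : ℕ → ℕ) (i : ℕ) (hi : i ≤ k) (he : M ≤ e i),
    mbr σ k (fun j => ((PP s : Module.End ℂ A) ^ (e j)) (f j)) ∈ (LL σ k).map X ⊔ LL σ (k+1) := by
  obtain ⟨M, hM⟩ := Pool.Agent.H569_J3.TARGET k
  refine ⟨M, ?_⟩
  intro s hs X E hX hEP hEX hPX hXm hN p c f hf hc e i hi he
  have hP : ∀ p a, hom σ p a → hom σ p (PP s a) := fun p a h => hom_PP σ hs h
  have hcomm : Commute (PP s : Module.End ℂ A) X := by
    apply LinearMap.ext; intro a
    exact (hPX a).symm
  set K : Submodule ℂ A := (LL σ k).map X ⊔ LL σ (k+1) with hK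
  have hKL : LL σ (k+1) ≤ K := le_sup_right
  let J := JJ σ (PP s) X E hP hX hEP hEX hcomm p c k K
  have hJ1 : ∀ i < k, ((MvPolynomial.X (Sum.inl (i+1)) : MvPolynomial (ℕ ⊕ ℕ) ℂ) - MvPolynomial.X (Sum.inl i)) ^ 3 ∈ J := by
    intro i hi
    rw [mem_JJ]
    intro f hf
    have hexp : ((MvPolynomial.X (Sum.inl (i+1)) : MvPolynomial (ℕ ⊕ ℕ) ℂ) - MvPolynomial.X (Sum.inl i)) ^ 3
      = monomial (Finsupp.single (Sum.inl (i+1)) 3 + Finsupp.single (Sum.inl i) 0) 1
        - (3:ℂ) • monomial (Finsupp.single (Sum.inl (i+1)) 2 + Finsupp.single (Sum.inl i) 1) 1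
        + (3:ℂ) • monomial (Finsupp.single (Sum.inl (i+1)) 1 + Finsupp.single (Sum.inl i) 2) 1
        - monomial (Finsupp.single (Sum.inl (i+1)) 0 + Finsupp.single (Sum.inl i) 3) 1 := by
      have hm : ∀ a b : ℕ, (monomial (Finsupp.single (Sum.inl (i+1)) a + Finsupp.single (Sum.inl i) b) (1:ℂ)
          : MvPolynomial (ℕ ⊕ ℕ) ℂ) = MvPolynomial.X (Sum.inl (i+1)) ^ a * MvPolynomial.X (Sum.inl i) ^ b := by
        intro a b
        rw [X_pow_eq_monomial, X_pow_eq_monomial, monomial_mul, mul_one]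
      rw [hm, hm, hm, hm, MvPolynomial.smul_eq_C_mul, MvPolynomial.smul_eq_C_mul]
      simp only [map_ofNat]
      ring
    rw [hexp, map_sub, map_add, map_sub, map_smul, map_smul, Phi_monomial, Phi_monomial, Phi_monomial, Phi_monomial,
      act_ZZ, act_ZZ, act_ZZ, act_ZZ, one_smul, one_smul, one_smul, one_smul]
    exact hKL (mbr_loc σ hσ s hs p f (fun j => (hf j).1) k i (by omega))
  have hJ2 : ∀ i ≤ k, ((MvPolynomial.X (Sum.inr i) : MvPolynomial (ℕ ⊕ ℕ) ℂ) - c i • MvPolynomial.X (Sum.inl i)) ^ 2 ∈ J := by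
    intro i hi
    rw [mem_JJ]
    intro f hf
    have hexp : ((MvPolynomial.X (Sum.inr i) : MvPolynomial (ℕ ⊕ ℕ) ℂ) - c i • MvPolynomial.X (Sum.inl i)) ^ 2
      = monomial (Finsupp.single (Sum.inr i) 2) 1
        - (2 * c i) • monomial (Finsupp.single (Sum.inr i) 1 + Finsupp.single (Sum.inl i) 1) 1
        + (c i ^ 2) • monomial (Finsupp.single (Sum.inl i) 2) 1 := by
      have hm : (monomial (Finsupp.single (Sum.inr i) 1 + Finsupp.single (Sum.inl i) 1) (1:ℂ)
          : MvPolynomial (ℕ ⊕ ℕ) ℂ) = MvPolynomial.X (Sum.inr i) * MvPolynomial.X (Sum.inl i) := by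
        rw [MvPolynomial.X, MvPolynomial.X, monomial_mul, mul_one]
      rw [hm, ← X_pow_eq_monomial, ← X_pow_eq_monomial, MvPolynomial.smul_eq_C_mul, MvPolynomial.smul_eq_C_mul,
        MvPolynomial.smul_eq_C_mul]
      simp only [map_mul, map_pow, map_ofNat]
      ring
    rw [hexp, map_add, map_sub, map_smul, map_smul, Phi_monomial, Phi_monomial, Phi_monomial,
      act_single_inr, act_single_inl, act_single_both, one_smul, one_smul, one_smul, ← mbr_smul σ k i hi,
      ← mbr_smul σ k i hi, sub_eq_add_neg, ← neg_one_smul ℂ (mbr σ k _), ← mbr_smul σ k i hi, ← mbr_add σ k i hi, ← mbr_add σ k i hi]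
    apply hKL
    refine mbr_M3 σ hσ k i hk hi _ ?_
    rw [Function.update_self]
    have := hN (c i) (f i) (hf i).2
    rw [hPX] at this
    convert this using 1
    simp only [pow_succ, pow_zero, one_mul, Module.End.mul_apply]
    module
  have hJ3 : ∑ i ∈ Finset.range (k + 1), (MvPolynomial.X (Sum.inr i) : MvPolynomial (ℕ ⊕ ℕ) ℂ) ∈ J := by
    rw [mem_JJ]
    intro f hf
    have : ∀ i, (MvPolynomial.X (Sum.inr i) : MvPolynomial (ℕ ⊕ ℕ) ℂ) = monomial (Finsupp.single (Sum.inr i) 1) 1 := fun i => rfl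
    rw [map_sum]
    have h2 : ∑ i ∈ Finset.range (k+1), Phi σ (PP s) X k f (MvPolynomial.X (Sum.inr i)) = X (mbr σ k f) := by
      rw [mbr_leibniz σ X hXm]
      refine Finset.sum_congr rfl (fun i hi => ?_)
      rw [this, Phi_monomial, one_smul, act_single_inr, pow_one]
    rw [h2]
    exact Submodule.mem_sup_left (Submodule.mem_map_of_mem (mbr_mem σ k f))
  have hfin := hM (MvPolynomial (ℕ ⊕ ℕ) ℂ) (fun i => MvPolynomial.X (Sum.inl i)) (fun i => MvPolynomial.X (Sum.inr i)) c J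
    hJ1 hJ2 hJ3 hc i hi
  rw [mem_JJ] at hfin
  -- apply to the tuple with exponent reduced at `i`
  let e' : ℕ → ℕ := fun j => if j = i then e i - M else e j
  let f' : ℕ → A := fun j => ((PP s : Module.End ℂ A) ^ (e' j)) (f j)
  have hf' : Adm σ E p c f' := by
    intro j
    have keyP : ∀ (n : ℕ), hom σ (p j) (((PP s : Module.End ℂ A) ^ n) (f j)) ∧
        E (((PP s : Module.End ℂ A) ^ n) (f j)) = c j • ((PP s : Module.End ℂ A) ^ n) (f j) := by
      intro n
      induction n with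
      | zero => simpa using hf j
      | succ n ih =>
        rw [pow_succ', Module.End.mul_apply]
        exact ⟨hP _ _ ih.1, by rw [hEP, ih.2, map_smul]⟩
    exact keyP _
  have hres := hfin f' hf'
  rw [X_pow_eq_monomial, Phi_monomial, one_smul, act_single_inl] at hres
  convert hres using 2
  funext j
  by_cases h : j = i
  · subst h
    rw [Function.update_self]
    show ((PP s : Module.End ℂ A) ^ (e j)) (f j) = ((PP s : Module.End ℂ A) ^ M) (((PP s : Module.End ℂ A) ^ (e' j)) (f j))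
    rw [← Module.End.mul_apply, ← pow_add]
    simp only [e', if_true]
    rw [Nat.add_sub_cancel' he]
  · rw [Function.update_of_ne h]
    show _ = ((PP s : Module.End ℂ A) ^ (e' j)) (f j)
    simp only [e', if_neg h]

end Pool.Agent.H569_LCS
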