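import Pool.Agent.H569_LCS.NN
set_option autoImplicit false
set_option linter.unusedSimpArgs false
set_option linter.unusedVariables false
set_option linter.unusedSectionVars false
namespace Pool.Agent.H569_LCS

section abstract
variable {A : Type} [Ring A] [Algebra ℂ A] (σ : A →ₐ[ℂ] A)

/-- even letters: two occurrences -/
theorem red_even (hσ : ∀ a, σ (σ a) = a) {s : A} (hs : σ s = s) (a b c : A) :
    a * s * b * s * c ∈ (⊤ : Submodule ℂ A).map (PP s) ⊔ M3 σ := by
  have key : a * s * b * s * c = PP s (a * b * s * c - ds s a * b * c + (1/2 : ℂ) • ds s (a * b * c))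
      + (ds s (ds s a) * (b * c) + ds s a * ds s b * c
        - (1/2 : ℂ) • (ds s (ds s (a * b)) * c + ds s (a * b) * ds s c + ds s (ds s a) * (b * c) + ds s a * ds s (b * c))
        + (1/4 : ℂ) • ds s (ds s (a * b * c))) := by
    simp only [ds_apply, PP_apply, mul_sub, sub_mul, mul_add, add_mul, mul_assoc,
        smul_mul_assoc, mul_smul_comm, smul_sub, smul_add]
    module
  rw [key]
  refine Submodule.add_mem _ (Submodule.mem_sup_left (Submodule.mem_map_of_mem trivial)) (Submodule.mem_sup_right ?_)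
  refine Submodule.add_mem _ (Submodule.sub_mem _ (Submodule.add_mem _ ?_ ?_) (Submodule.smul_mem _ _
    (Submodule.add_mem _ (Submodule.add_mem _ (Submodule.add_mem _ ?_ ?_) ?_) ?_))) (Submodule.smul_mem _ _ ?_)
  · exact M3_mul_right σ hσ (ds_ds_M3 σ hs _) _
  · exact M3_mul_right σ hσ (ds_mul_ds σ hσ hs _ _) _
  · exact M3_mul_right σ hσ (ds_ds_M3 σ hs _) _
  · exact ds_mul_ds σ hσ hs _ _
  · exact M3_mul_right σ hσ (ds_ds_M3 σ hs _) _
  · exact ds_mul_ds σ hσ hs _ _
  · exact ds_ds_M3 σ hs _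

/-- for odd `y` and `s = y²`, `[s, a] = [y, [y, a]]` -/
theorem ds_odd (hσ : ∀ a, σ (σ a) = a) {y : A} (hy : hom σ true y) (a : A) :
    ds (y * y) a = D σ true y (D σ true y a) := by
  simp only [hom, cond_true] at hy
  simp only [ds_apply, D, tw, cond_true, map_mul, map_sub, hy, hσ, mul_sub, sub_mul, neg_mul, mul_neg, neg_neg, mul_assoc]
  abel

theorem ds_odd_mem (hσ : ∀ a, σ (σ a) = a) {y : A} (hy : hom σ true y) (a : A) :
    ds (y * y) a ∈ LL σ 2 := by
  rw [ds_odd σ hσ hy]
  exact LL_D0 σ hy (LL_D0 σ hy (j := 0) trivial)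

/-- `s A + M_3` -/
noncomputable def WO (s : A) : Submodule ℂ A := (⊤ : Submodule ℂ A).map (LinearMap.mulLeft ℂ s) ⊔ M3 σ

theorem WO_s (s a : A) : s * a ∈ WO σ s := Submodule.mem_sup_left ⟨a, trivial, rfl⟩

theorem WO_M3 {s x : A} (hx : x ∈ M3 σ) : x ∈ WO σ s := Submodule.mem_sup_right hx

theorem WO_mul_left (hσ : ∀ a, σ (σ a) = a) {y : A} (hy : hom σ true y) (u : A) {x : A} (hx : x ∈ WO σ (y*y)) :
    u * x ∈ WO σ (y * y) := by
  have h1 : WO σ (y*y) ≤ (WO σ (y*y)).comap (LinearMap.mulLeft ℂ u) := by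
    refine sup_le ?_ ?_
    · rintro _ ⟨a, _, rfl⟩
      rw [Submodule.mem_comap, LinearMap.mulLeft_apply, LinearMap.mulLeft_apply]
      have : u * (y * y * a) = (y * y) * (u * a) - ds (y * y) u * a := by
        rw [ds_apply]; simp only [sub_mul, mul_assoc]; abel
      rw [this]
      exact Submodule.sub_mem _ (WO_s σ _ _) (WO_M3 σ (M3_mul_right σ hσ (LL2_le_M3 σ (ds_odd_mem σ hσ hy _)) _))
    · intro x hx
      exact WO_M3 σ (M3_mul_left σ _ hx)
  exact h1 hx

theorem WO_mul_right (hσ : ∀ a, σ (σ a) = a) (s u : A) {x : A} (hx : x ∈ WO σ s) :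
    x * u ∈ WO σ s := by
  have h1 : WO σ s ≤ (WO σ s).comap (LinearMap.mulRight ℂ u) := by
    refine sup_le ?_ ?_
    · rintro _ ⟨a, _, rfl⟩
      rw [Submodule.mem_comap, LinearMap.mulLeft_apply, LinearMap.mulRight_apply, mul_assoc]
      exact WO_s σ _ _
    · intro x hx
      exact WO_M3 σ (M3_mul_right σ hσ hx _)
  exact h1 hx

theorem WO_mul_s (hσ : ∀ a, σ (σ a) = a) {y : A} (hy : hom σ true y) (a : A) : a * (y * y) ∈ WO σ (y*y) := by
  have : (y * y) ∈ WO σ (y*y) := by simpa using WO_s σ (y*y) 1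
  exact WO_mul_left σ hσ hy a this

theorem dy_dy_hom (hσ : ∀ a, σ (σ a) = a) {y : A} (hy : hom σ true y) (r : Bool) (b c : A) (hc : hom σ r c) :
    tw σ r (D σ true y b) * D σ true y c ∈ WO σ (y*y) := by
  have h1 : D σ r c (D σ true y (b * y)) ∈ LL σ 2 := LL_D0 σ hc (LL_D0 σ hy (j := 0) trivial)
  have h2 : D σ r c (D σ true y b) ∈ LL σ 2 := LL_D0 σ hc (LL_D0 σ hy (j := 0) trivial)
  have h3 : ds (y*y) c ∈ LL σ 2 := ds_odd_mem σ hσ hy c
  have key : tw σ r (D σ true y b) * D σ true y c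
      = - (sg r) • (D σ r c (D σ true y (b * y)) - D σ r c (D σ true y b) * y
        - (2:ℂ) • (D σ r c (σ b) * (y * y) - tw σ r (σ b) * ds (y*y) c)) := by
    simp only [hom, cond_true] at hy
    cases r <;>
    · simp only [hom, cond_true, cond_false] at hc
      simp only [ds_apply, D, tw, sg, cond_true, cond_false, map_mul, map_sub, map_neg, hy, hc, hσ, mul_sub, sub_mul, neg_mul,
        mul_neg, neg_neg, mul_assoc, smul_sub, smul_neg]
      module
  rw [key]
  refine Submodule.smul_mem _ _ (Submodule.sub_mem _ (Submodule.sub_mem _ (WO_M3 σ (LL2_le_M3 σ h1))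
    (WO_M3 σ (M3_mul_right σ hσ (LL2_le_M3 σ h2) _))) (Submodule.smul_mem _ _ (Submodule.sub_mem _ ?_ ?_)))
  · exact WO_mul_s σ hσ hy _
  · exact WO_M3 σ (M3_mul_left σ _ (LL2_le_M3 σ h3))

theorem dy_dy (hσ : ∀ a, σ (σ a) = a) {y : A} (hy : hom σ true y) (b c : A) :
    D σ true y b * D σ true y c ∈ WO σ (y*y) := by
  have key : ∀ r c, hom σ r c → D σ true y b * D σ true y c ∈ WO σ (y*y) := by
    intro r c hc
    cases r
    · exact dy_dy_hom σ hσ hy false b c hc
    · have := dy_dy_hom σ hσ hy true (σ b) c hc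
      have e : tw σ true (D σ true y (σ b)) = - D σ true y b := by
        simp only [hom, cond_true] at hy
        simp only [D, tw, cond_true, map_mul, map_sub, hy, hσ, neg_mul, mul_neg, neg_neg]; abel
      rw [e, neg_mul] at this
      simpa using Submodule.neg_mem _ this
  have e : D σ true y c = D σ true y (pr σ false c) + D σ true y (pr σ true c) := by
    conv_lhs => rw [← pr_add_pr σ c]
    simp only [D, tw, cond_true, map_add, mul_add, add_mul]; abel
  rw [e, mul_add]
  exact Submodule.add_mem _ (key _ _ (hom_pr σ hσ false c)) (key _ _ (hom_pr σ hσ true c))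

/-- odd letters: three occurrences -/
theorem red_odd (hσ : ∀ a, σ (σ a) = a) {y : A} (hy : hom σ true y) (a b c e : A) :
    a * y * b * y * c * y * e ∈ (⊤ : Submodule ℂ A).map (PP (y*y)) ⊔ M3 σ := by
  have hW : WO σ (y*y) ≤ (⊤ : Submodule ℂ A).map (PP (y*y)) ⊔ M3 σ := by
    refine sup_le ?_ le_sup_right
    rintro _ ⟨x, _, rfl⟩
    rw [LinearMap.mulLeft_apply]
    have : y * y * x = PP (y*y) x + (1/2 : ℂ) • ds (y*y) x := by
      rw [PP_apply, ds_apply]; module
    rw [this]
    exact Submodule.add_mem _ (Submodule.mem_sup_left (Submodule.mem_map_of_mem trivial))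
      (Submodule.mem_sup_right (Submodule.smul_mem _ _ (LL2_le_M3 σ (ds_odd_mem σ hσ hy _))))
  apply hW
  have core : y * b * y * c * y ∈ WO σ (y*y) := by
    have key : y * b * y * c * y = σ b * ((y * y) * (c * y)) + D σ true y b * ((y*y) * σ c)
        - D σ true y b * ds (y*y) (σ c) + D σ true y b * D σ true y c * y := by
      simp only [hom, cond_true] at hy
      simp only [ds_apply, D, tw, cond_true, map_mul, map_sub, hy, hσ, mul_sub, sub_mul, neg_mul, mul_neg, neg_neg, mul_assoc]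
      abel
    rw [key]
    refine Submodule.add_mem _ (Submodule.sub_mem _ (Submodule.add_mem _ ?_ ?_) ?_) ?_
    · exact WO_mul_left σ hσ hy _ (WO_s σ _ _)
    · exact WO_mul_left σ hσ hy _ (WO_s σ _ _)
    · exact WO_M3 σ (M3_mul_left σ _ (LL2_le_M3 σ (ds_odd_mem σ hσ hy _)))
    · exact WO_mul_right σ hσ _ _ (dy_dy σ hσ hy b c)
  have : a * y * b * y * c * y * e = a * (y * b * y * c * y) * e := by simp only [mul_assoc]
  rw [this]
  exact WO_mul_right σ hσ _ _ (WO_mul_left σ hσ hy _ core)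

end abstract

variable {ι : Type} [DecidableEq ι] [Fintype ι] (par : ι → Bool) (w : ι)

theorem split_word (u : FreeMonoid ι) : 1 ≤ dg u w → 
    ∃ a v : FreeMonoid ι, u = a * FreeMonoid.of w * v ∧ dg v w + 1 = dg u w := by
  induction u using FreeMonoid.recOn with
  | one => intro h; rw [dg_one] at h; simp at h
  | of_mul x u ih =>
    intro h
    by_cases hx : x = w
    · subst hx
      refine ⟨1, u, by rw [one_mul], ?_⟩
      rw [dg_mul, dg_of, Finsupp.add_apply, Finsupp.single_eq_same]; omega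
    · have h0 : dg (FreeMonoid.of x * u) w = dg u w := by
        rw [dg_mul, dg_of, Finsupp.add_apply, Finsupp.single_apply, if_neg hx, zero_add]
      rw [h0] at h ⊢
      obtain ⟨a, v, h1, h2⟩ := ih h
      exact ⟨FreeMonoid.of x * a, v, by rw [h1]; simp only [mul_assoc], h2⟩

theorem red_word (u : FreeMonoid ι) (hu : 3 ≤ dg u w) :
    wd u ∈ (⊤ : Submodule ℂ (FreeAlgebra ℂ ι)).map (PP (ss par w)) ⊔ M3 (sig par) := by
  obtain ⟨a, v, h1, h2⟩ := split_word w u (by omega)
  obtain ⟨b, v', h3, h4⟩ := split_word w v (by omega)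
  obtain ⟨c, e, h5, h6⟩ := split_word w v' (by omega)
  cases h : par w
  · have hs : ss par w = FreeAlgebra.ι ℂ w := by simp [ss, h]
    have := red_even (sig par) (sig_sig par) (sig_ss par w) (wd a) (wd b) (wd v')
    rw [h1, h3]
    rw [hs] at this ⊢
    simp only [map_mul, wd_of]
    simpa only [mul_assoc] using this
  · have hs : ss par w = FreeAlgebra.ι ℂ w * FreeAlgebra.ι ℂ w := by simp [ss, h]
    have hy : hom (sig par) true (FreeAlgebra.ι ℂ w) := by
      simp only [hom, cond_true, sig_ι, h, sg]; simp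
    have := red_odd (sig par) (sig_sig par) hy (wd a) (wd b) (wd c) (wd e)
    rw [h1, h3, h5]
    rw [hs]
    simp only [map_mul, wd_of]
    simpa only [mul_assoc] using this

end Pool.Agent.H569_LCS
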