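import Pool.Agent.H569_LCS.Red
set_option autoImplicit false
set_option linter.unusedSimpArgs false
set_option linter.unusedVariables false
set_option linter.unusedSectionVars false
namespace Pool.Agent.H569_LCS

variable {ι : Type} [DecidableEq ι] [Fintype ι] (par : ι → Bool) (w : ι)

theorem LL_eq_span (k : ℕ) :
    LL (sig par) k = Submodule.span ℂ (Set.range (fun u : ℕ → FreeMonoid ι => mbr (sig par) k (fun i => wd (u i)))) := by
  induction k with
  | zero =>
    refine le_antisymm ?_ le_top
    intro x _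
    have : x ∈ Submodule.span ℂ (Set.range (wd : FreeMonoid ι → FreeAlgebra ℂ ι)) := by rw [span_wd]; trivial
    refine Submodule.span_mono ?_ this
    rintro _ ⟨v, rfl⟩
    exact ⟨fun _ => v, rfl⟩
  | succ k ih =>
    apply le_antisymm
    · refine Submodule.map₂_le.2 (fun a _ b hb => ?_)
      have h1 : ∀ v : FreeMonoid ι, sbr (sig par) (wd v) b ∈ Submodule.span ℂ
          (Set.range (fun u : ℕ → FreeMonoid ι => mbr (sig par) (k+1) (fun i => wd (u i)))) := by
        intro v
        rw [ih] at hb
        have : Submodule.span ℂ (Set.range (fun u : ℕ → FreeMonoid ι => mbr (sig par) k (fun i => wd (u i))))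
            ≤ (Submodule.span ℂ (Set.range (fun u : ℕ → FreeMonoid ι => mbr (sig par) (k+1) (fun i => wd (u i))))).comap
              (sbr (sig par) (wd v)) := by
          rw [Submodule.span_le]
          rintro _ ⟨u, rfl⟩
          refine Submodule.subset_span ⟨Function.update u (k+1) v, ?_⟩
          simp only [mbr, Function.update_self]
          congr 1
          exact mbr_congr _ _ _ _ (fun j hj => by rw [Function.update_of_ne (by omega)])
        exact this hb
      have h2 : a ∈ (Submodule.span ℂ
          (Set.range (fun u : ℕ → FreeMonoid ι => mbr (sig par) (k+1) (fun i => wd (u i))))).comap ((sbr (sig par)).flip b) :=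
        top_le_of_wd h1 a
      exact h2
    · rw [Submodule.span_le]
      rintro _ ⟨u, rfl⟩
      exact mbr_mem _ _ _

/-- total degree of a tuple of words -/
noncomputable def tdeg (k : ℕ) (u : ℕ → FreeMonoid ι) : ι →₀ ℕ := ∑ i ∈ Finset.range (k+1), dg (u i)

theorem mbr_G (k : ℕ) (u : ℕ → FreeMonoid ι) : mbr (sig par) k (fun i => wd (u i)) ∈ G (tdeg k u) := by
  induction k with
  | zero =>
    have e : tdeg 0 u = dg (u 0) := by rw [tdeg, Finset.sum_range_one]
    rw [e]
    exact wd_mem_G (u 0)
  | succ k ih =>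
    have e : tdeg (k+1) u = dg (u (k+1)) + tdeg k u := by
      rw [tdeg, Finset.sum_range_succ, add_comm, tdeg]
    rw [e]
    exact sbr_G par (wd_mem_G (u (k+1))) ih

theorem Gr_LL (k : ℕ) : Gr (LL (sig par) k) := by
  rw [LL_eq_span]
  apply Gr_span
  rintro _ ⟨u, rfl⟩
  exact ⟨_, mbr_G par k u⟩

theorem Gr_M3 : Gr (M3 (sig par)) := by
  rw [M3, LL_eq_span, ← span_wd, Submodule.span_mul_span]
  apply Gr_span
  rintro _ ⟨_, ⟨v, rfl⟩, _, ⟨u, rfl⟩, rfl⟩
  exact ⟨_, G_mul (wd_mem_G v) (mbr_G par 2 u)⟩

/-- elements of `L_k` of degree `d` are combinations of brackets of words of total degree `d` -/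
theorem LL_G_le (k : ℕ) (d : ι →₀ ℕ) (W : Submodule ℂ (FreeAlgebra ℂ ι))
    (h : ∀ u : ℕ → FreeMonoid ι, tdeg k u = d → mbr (sig par) k (fun i => wd (u i)) ∈ W) :
    LL (sig par) k ⊓ G d ≤ W := by
  rintro x ⟨hx1, hx2⟩
  have : LL (sig par) k ≤ W.comap (proj d) := by
    rw [LL_eq_span, Submodule.span_le]
    rintro _ ⟨u, rfl⟩
    show proj d (mbr (sig par) k (fun i => wd (u i))) ∈ W
    by_cases hd : tdeg k u = d
    · rw [proj_self (hd ▸ mbr_G par k u)]; exact h u hd
    · rw [proj_ne hd (mbr_G par k u)]; exact Submodule.zero_mem _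
  have := this hx1
  rwa [Submodule.mem_comap, proj_self hx2] at this

theorem proj_PP (d : ι →₀ ℕ) (x : FreeAlgebra ℂ ι) :
    proj (d + Finsupp.single w (pw par w)) (PP (ss par w) x) = PP (ss par w) (proj d x) := by
  have : (proj (d + Finsupp.single w (pw par w))) ∘ₗ (PP (ss par w)) = (PP (ss par w)) ∘ₗ (proj d) := by
    apply ext_wd
    intro u
    simp only [LinearMap.comp_apply]
    by_cases h : dg u = d
    · rw [proj_self (x := wd u) (h ▸ wd_mem_G u), proj_self]
      rw [← h]; exact PP_G par w (wd_mem_G u)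
    · rw [proj_ne h (wd_mem_G u), map_zero, proj_ne _ (PP_G par w (wd_mem_G u))]
      intro h'; exact h (add_right_cancel h')
  exact congrArg (fun f => f x) this

theorem pw_pos : 1 ≤ pw par w := by unfold pw; cases par w <;> simp
theorem pw_le : pw par w ≤ 2 := by unfold pw; cases par w <;> simp

theorem red_step (d : ι →₀ ℕ) (hd : 3 ≤ d w) (f : FreeAlgebra ℂ ι) (hf : f ∈ G d) :
    ∃ d' : ι →₀ ℕ, d = d' + Finsupp.single w (pw par w) ∧ ∃ x ∈ G d', f - PP (ss par w) x ∈ M3 (sig par) := by
  have h1 := pw_le par w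
  let d' := d - Finsupp.single w (pw par w)
  have hd' : d = d' + Finsupp.single w (pw par w) := by
    ext y
    simp only [d', Finsupp.add_apply, Finsupp.tsub_apply]
    by_cases hy : y = w
    · subst hy; simp; omega
    · rw [Finsupp.single_apply, if_neg (Ne.symm hy)]; simp
  refine ⟨d', hd', ?_⟩
  have h2 : G d ≤ (⊤ : Submodule ℂ (FreeAlgebra ℂ ι)).map (PP (ss par w)) ⊔ M3 (sig par) :=
    G_le (fun u hu => red_word par w u (by rw [hu]; exact hd))
  obtain ⟨y, hy, m, hm, hym⟩ := Submodule.mem_sup.1 (h2 hf)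
  obtain ⟨a, _, rfl⟩ := hy
  refine ⟨proj d' a, proj_mem _ _, ?_⟩
  have h3 : f = proj d f := (proj_self hf).symm
  have h4 : proj d f = PP (ss par w) (proj d' a) + proj d m := by
    rw [← hym, map_add]
    congr 1
    rw [← proj_PP]; rw [← hd']
  rw [h3, h4, add_sub_cancel_left]
  exact Gr_M3 par d m hm

theorem PP_pow_G (e : ℕ) {d : ι →₀ ℕ} {x : FreeAlgebra ℂ ι} (hx : x ∈ G d) :
    ((PP (ss par w) : Module.End ℂ (FreeAlgebra ℂ ι)) ^ e) x ∈ G (d + Finsupp.single w (e * pw par w)) := by
  induction e with
  | zero => simpa using hx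
  | succ e ih =>
    rw [pow_succ', Module.End.mul_apply]
    have := PP_G par w ih
    rwa [add_assoc, ← Finsupp.single_add, show e * pw par w + pw par w = (e+1) * pw par w by ring] at this

theorem red_full (n : ℕ) : ∀ (d : ι →₀ ℕ), d w ≤ n → ∀ f ∈ G d, ∃ (e : ℕ) (d' : ι →₀ ℕ),
    d = d' + Finsupp.single w (e * pw par w) ∧ d' w ≤ 2 ∧ ∃ f' ∈ G d',
      f - ((PP (ss par w) : Module.End ℂ (FreeAlgebra ℂ ι)) ^ e) f' ∈ M3 (sig par) := by
  induction n with
  | zero =>
    intro d hd f hf
    exact ⟨0, d, by simp, by omega, f, hf, by simp⟩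
  | succ n ih =>
    intro d hd f hf
    by_cases h : d w ≤ 2
    · exact ⟨0, d, by simp, h, f, hf, by simp⟩
    · obtain ⟨d1, hd1, x, hx, hfx⟩ := red_step par w d (by omega) f hf
      have hp := pw_pos par w
      have hdw : d w = d1 w + pw par w := by
        have := congrArg (fun f => f w) hd1
        simpa using this
      obtain ⟨e, d', hd', hd'w, f', hf', hm⟩ := ih d1 (by omega) x hx
      refine ⟨e+1, d', ?_, hd'w, f', hf', ?_⟩
      · rw [hd1, hd', add_assoc, ← Finsupp.single_add]; ring_nf
      · rw [pow_succ', Module.End.mul_apply]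
        have := Submodule.add_mem _ hfx (PP_M3 (sig par) (sig_sig par) (ss par w) hm)
        rw [map_sub] at this
        simpa using this

/-- The surjectivity statement for the free superalgebra. -/
theorem surj_free (k : ℕ) (hk : 1 ≤ k) : ∃ N : ℕ, ∀ (d : ι →₀ ℕ), N ≤ d w → cc w d ≠ 0 →
    ∀ u ∈ LL (sig par) k ⊓ G (d + Finsupp.single w (pw par w)),
      ∃ v ∈ LL (sig par) k ⊓ G d, u - XX par w v ∈ LL (sig par) (k+1) := by
  obtain ⟨M, hM⟩ := surj_abs (sig par) (sig_sig par) k hk
  refine ⟨(k+1) * (2 * M + 2), ?_⟩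
  intro d hd hc u hu
  have key : LL (sig par) k ⊓ G (d + Finsupp.single w (pw par w)) ≤
      (LL (sig par) k).map (XX par w) ⊔ LL (sig par) (k+1) := by
    apply LL_G_le
    intro u hu
    choose e d' hd' hd'w f' hf' hm using fun i => red_full par w (dg (u i) w) (dg (u i)) le_rfl (wd (u i)) (wd_mem_G (u i))
    have h1 : mbr (sig par) k (fun i => wd (u i))
        - mbr (sig par) k (fun i => ((PP (ss par w) : Module.End ℂ (FreeAlgebra ℂ ι)) ^ (e i)) (f' i)) ∈ LL (sig par) (k+1) :=
      mbr_sub_M3 (sig par) (sig_sig par) k hk _ _ (fun i _ => hm i)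
    have h2 : mbr (sig par) k (fun i => ((PP (ss par w) : Module.End ℂ (FreeAlgebra ℂ ι)) ^ (e i)) (f' i))
        ∈ (LL (sig par) k).map (XX par w) ⊔ LL (sig par) (k+1) := by
      -- some exponent is large
      have hex : ∃ i, i ≤ k ∧ M ≤ e i := by
        by_contra hcon
        push Not at hcon
        have hsum : (tdeg k u) w = ∑ i ∈ Finset.range (k+1), (dg (u i)) w := by
          rw [tdeg, Finsupp.finsetSum_apply]
        have hle : ∑ i ∈ Finset.range (k+1), (dg (u i)) w ≤ ∑ i ∈ Finset.range (k+1), (2 * M + 2) := by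
          refine Finset.sum_le_sum (fun i hi => ?_)
          have hi' : i ≤ k := by have := Finset.mem_range.1 hi; omega
          have e1 : (dg (u i)) w = d' i w + e i * pw par w := by
            have := congrArg (fun f => f w) (hd' i)
            simpa using this
          have e2 := hd'w i
          have e3 := hcon i hi'
          have e4 := pw_le par w
          have e5 : e i * pw par w ≤ e i * 2 := Nat.mul_le_mul_left _ e4
          omega
        rw [Finset.sum_const, Finset.card_range, smul_eq_mul] at hle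
        have e6 : (tdeg k u) w = d w + pw par w := by rw [hu]; simp
        have e7 := pw_pos par w
        omega
      obtain ⟨i, hi, hMi⟩ := hex
      refine hM (ss par w) (sig_ss par w) (XX par w) (EE w) ?_ (EE_PP par w) (EE_XX par w) (XX_PP par w)
        ?_ (hN_concrete par w) (fun i => pp par (d' i)) (fun i => (cc w (d' i) : ℂ)) f' ?_ ?_ e i hi hMi
      · intro p a ha
        rw [hom_iff] at *
        rw [← XX_sig, ha, map_smul]
      · exact even_sbr (sig par) (XX par w) (XX_mul par w) (XX_sig par w)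
      · intro i
        exact ⟨hom_G par (hf' i), EE_G w (hf' i)⟩
      · have e1 : ∑ i ∈ Finset.range (k+1), cc w (d' i) = cc w d := by
          have e2 : ∀ i, cc w (d' i) = cc w (dg (u i)) := by
            intro i
            rw [hd' i, cc_add, cc_single]; simp
          have e3 : cc w (tdeg k u) = ∑ i ∈ Finset.range (k+1), cc w (dg (u i)) := by
            have : ∀ n, cc w (∑ i ∈ Finset.range n, dg (u i)) = ∑ i ∈ Finset.range n, cc w (dg (u i)) := by
              intro n
              induction n with
              | zero => simp [cc_zero]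
              | succ n ih => rw [Finset.sum_range_succ, Finset.sum_range_succ, cc_add, ih]
            exact this _
          simp only [e2]
          rw [← e3, hu, cc_add, cc_single]; simp
        rw [← Nat.cast_sum, e1]
        exact_mod_cast hc
    have := Submodule.add_mem _ (Submodule.mem_sup_right (S := (LL (sig par) k).map (XX par w)) h1) h2
    simpa using this
  obtain ⟨y, hy, l, hl, hyl⟩ := Submodule.mem_sup.1 (key hu)
  obtain ⟨v, hv, rfl⟩ := hy
  refine ⟨proj d v, ⟨Gr_LL par k d v hv, proj_mem _ _⟩, ?_⟩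
  have h3 : u = proj (d + Finsupp.single w (pw par w)) u := (proj_self hu.2).symm
  rw [h3, ← hyl, map_add, proj_XX, add_sub_cancel_left]
  exact Gr_LL par (k+1) _ l hl

end Pool.Agent.H569_LCS
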